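import Mathlib

set_option autoImplicit false

namespace Pool.Agent.Lib.MP_6e4f46_an

open MeasureTheory

/-- The measure `dA₁(z) = 2 (1 - |z|²) dA(z)`, `dA = π⁻¹ dx dy`, on the open unit disc. -/
noncomputable def dA1 : Measure ℂ :=
  (volume.restrict (Metric.ball (0 : ℂ) 1)).withDensity
    (fun z => ENNReal.ofReal (2 * (1 - ‖z‖ ^ 2) / Real.pi))

/-- `f` belongs to the weighted Bergman space `A²₁`: it is holomorphic on the open unit disc and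
square integrable for `dA₁`. -/
def InA (f : ℂ → ℂ) : Prop :=
  DifferentiableOn ℂ f (Metric.ball 0 1) ∧ MemLp f 2 dA1

/-- `[H]`, the closure in `A²₁` of `{H p : p a polynomial}`. -/
def gen (H : ℂ → ℂ) : Set (ℂ → ℂ) :=
  {f | InA f ∧ ∀ ε : ENNReal, 0 < ε → ∃ p : Polynomial ℂ,
    eLpNorm (fun z => f z - H z * p.eval z) 2 dA1 < ε}

/-- `φ` solves the extremal problem `sup {Re f^(k)(0) : f ∈ X, ‖f‖ ≤ 1}`, where `k` is the smallest
order of vanishing at `0` among the functions in `X` (in particular `X ≠ {0}`). -/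
def IsBergmanInner (X : Set (ℂ → ℂ)) (φ : ℂ → ℂ) : Prop :=
  ∃ k : ℕ, (∀ f ∈ X, ∀ j < k, iteratedDeriv j f 0 = 0) ∧ (∃ f ∈ X, iteratedDeriv k f 0 ≠ 0) ∧
    φ ∈ X ∧ eLpNorm φ 2 dA1 ≤ 1 ∧
    ∀ f ∈ X, eLpNorm f 2 dA1 ≤ 1 → (iteratedDeriv k f 0).re ≤ (iteratedDeriv k φ 0).re

/-- `g = F'` on the open unit disc for some bounded holomorphic function `F` on the disc. -/
def IsDerivOfBounded (g : ℂ → ℂ) : Prop :=
  ∃ F : ℂ → ℂ, DifferentiableOn ℂ F (Metric.ball 0 1) ∧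
    (∃ C : ℝ, ∀ z ∈ Metric.ball (0 : ℂ) 1, ‖F z‖ ≤ C) ∧
    ∀ z ∈ Metric.ball (0 : ℂ) 1, deriv F z = g z

end Pool.Agent.Lib.MP_6e4f46_an
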