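import Pool.Agent.Lib.MP_6e4f46_an.L2

set_option autoImplicit false

namespace Pool.Agent.Lib.MP_6e4f46_an

open MeasureTheory Set Real Filter Topology
open scoped InnerProductSpace

theorem ac_dA1 : volume.restrict (Metric.ball (0 : ℂ) 1) ≪ dA1 := by
  apply withDensity_absolutelyContinuous' dens_meas.aemeasurable
  filter_upwards [ae_restrict_mem Metric.isOpen_ball.measurableSet] with z hz
  have h1 : ‖z‖ < 1 := by simpa using hz
  have h2 : ‖z‖ ^ 2 < 1 := by nlinarith [norm_nonneg z]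
  have h3 : 0 < 2 * (1 - ‖z‖ ^ 2) / π := div_pos (by linarith) pi_pos
  exact (ENNReal.ofReal_pos.2 h3).ne'

theorem norm_toLp_le_one {f : ℂ → ℂ} (hf : MemLp f 2 dA1) (h : eLpNorm f 2 dA1 ≤ 1) :
    ‖hf.toLp f‖ ≤ 1 := by
  rw [Lp.norm_toLp]
  have := ENNReal.toReal_mono ENNReal.one_ne_top h
  simpa using this

/-- A unit vector `φ` of `A²₁` with `φ(0) > 0` and `φ ⟂ z ^ d φ` for all `d ≥ 1` is the unique
extremal function of the invariant subspace it generates. -/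
theorem extremal (φ : ℂ → ℂ) (hφ : InA φ) (t : ℝ) (ht : 0 < t) (h0 : φ 0 = t)
    (hn : ‖hφ.2.toLp φ‖ = 1)
    (hd : ∀ d : ℕ, 1 ≤ d → ∃ h : MemLp (fun z => φ z * z ^ d) 2 dA1,
      ⟪hφ.2.toLp φ, h.toLp _⟫_ℂ = 0) :
    IsBergmanInner (gen φ) φ ∧
      ∀ ψ, IsBergmanInner (gen φ) ψ → ∀ z ∈ Metric.ball (0 : ℂ) 1, ψ z = φ z := by
  set Φ := hφ.2.toLp φ with hΦ
  have hpoly : ∀ p : Polynomial ℂ, ∃ h : MemLp (fun z => φ z * p.eval z) 2 dA1,
      ⟪Φ, h.toLp _⟫_ℂ = p.eval 0 := by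
    intro p
    induction p using Polynomial.induction_on' with
    | add p q hp hq =>
      obtain ⟨hp1, hp2⟩ := hp
      obtain ⟨hq1, hq2⟩ := hq
      have : (fun z => φ z * (p + q).eval z) =
          (fun z => φ z * p.eval z) + (fun z => φ z * q.eval z) := by
        funext z; simp [mul_add]
      rw [this]
      refine ⟨hp1.add hq1, ?_⟩
      rw [MemLp.toLp_add hp1 hq1, inner_add_right, hp2, hq2, Polynomial.eval_add]
    | monomial d a =>
      have : (fun z => φ z * (Polynomial.monomial d a).eval z) =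
          a • (fun z => φ z * z ^ d) := by
        funext z; simp only [Polynomial.eval_monomial, Pi.smul_apply, smul_eq_mul]; ring
      rw [this]
      rcases Nat.eq_zero_or_pos d with rfl | hd0
      · have h1 : (fun z => φ z * z ^ 0) = φ := by funext z; simp
        rw [h1]
        refine ⟨hφ.2.const_smul a, ?_⟩
        rw [MemLp.toLp_const_smul a hφ.2, inner_smul_right, ← hΦ, inner_self_eq_norm_sq_to_K, hn]
        simp
      · obtain ⟨h1, h2⟩ := hd d hd0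
        refine ⟨h1.const_smul a, ?_⟩
        rw [MemLp.toLp_const_smul a h1, inner_smul_right, h2]
        simp [hd0.ne']
  have hrep : ∀ f (hf : f ∈ gen φ), f 0 = t * ⟪Φ, hf.1.2.toLp f⟫_ℂ := by
    intro f hf
    let S : Set (Lp ℂ 2 dA1) := {v | ⟪mono 0, v⟫_ℂ = t * ⟪Φ, v⟫_ℂ}
    have hS : IsClosed S := isClosed_eq (by fun_prop) (by fun_prop)
    have hmem : hf.1.2.toLp f ∈ closure S := by
      rw [Metric.mem_closure_iff]
      intro ε hε
      obtain ⟨p, hp⟩ := hf.2 (ENNReal.ofReal ε) (ENNReal.ofReal_pos.2 hε)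
      obtain ⟨h1, h2⟩ := hpoly p
      refine ⟨h1.toLp _, ?_, ?_⟩
      · have hA : InA (fun z => φ z * p.eval z) :=
          ⟨hφ.1.mul p.differentiable.differentiableOn, h1⟩
        show ⟪mono 0, h1.toLp _⟫_ℂ = t * ⟪Φ, h1.toLp _⟫_ℂ
        rw [h2, inner_mono_zero hA, h0]
      · rw [dist_eq_norm, ← MemLp.toLp_sub, Lp.norm_toLp]
        exact ENNReal.toReal_lt_of_lt_ofReal hp
    rw [hS.closure_eq] at hmem
    rw [← inner_mono_zero hf.1]
    exact hmem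
  have hself : φ ∈ gen φ := by
    refine ⟨hφ, fun ε hε => ⟨1, ?_⟩⟩
    simpa using hε
  have hn' : eLpNorm φ 2 dA1 ≤ 1 := by
    rw [hΦ, Lp.norm_toLp, ENNReal.toReal_eq_one_iff] at hn
    exact hn.le
  have hne : φ 0 ≠ 0 := by rw [h0]; exact_mod_cast ht.ne'
  refine ⟨⟨0, by simp, ⟨φ, hself, by simpa using hne⟩, hself, hn', ?_⟩, ?_⟩
  · intro f hf hf1
    simp only [iteratedDeriv_zero]
    rw [hrep f hf, h0, Complex.re_ofReal_mul, Complex.ofReal_re]
    have h1 : (⟪Φ, hf.1.2.toLp f⟫_ℂ).re ≤ 1 := by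
      calc (⟪Φ, hf.1.2.toLp f⟫_ℂ).re ≤ ‖⟪Φ, hf.1.2.toLp f⟫_ℂ‖ := Complex.re_le_norm _
        _ ≤ ‖Φ‖ * ‖hf.1.2.toLp f‖ := norm_inner_le_norm _ _
        _ ≤ 1 := by rw [hn, one_mul]; exact norm_toLp_le_one _ hf1
    nlinarith
  · rintro ψ ⟨k, hk1, -, hψ, hψ1, hψ2⟩
    have hk : k = 0 := by
      by_contra hk
      have := hk1 φ hself 0 (Nat.pos_of_ne_zero hk)
      exact hne (by simpa using this)
    subst hk
    have h1 := hψ2 φ hself hn'
    simp only [iteratedDeriv_zero] at h1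
    rw [hrep ψ hψ, h0, Complex.re_ofReal_mul, Complex.ofReal_re] at h1
    have h2 : 1 ≤ (⟪Φ, hψ.1.2.toLp ψ⟫_ℂ).re := by
      by_contra h
      push Not at h
      nlinarith
    have h3 := norm_toLp_le_one hψ.1.2 hψ1
    have h4 : ‖Φ - hψ.1.2.toLp ψ‖ ^ 2 ≤ 0 := by
      rw [@norm_sub_sq ℂ, hn]
      have h5 := norm_nonneg (hψ.1.2.toLp ψ)
      have h6 : RCLike.re ⟪Φ, hψ.1.2.toLp ψ⟫_ℂ = (⟪Φ, hψ.1.2.toLp ψ⟫_ℂ).re := rfl
      rw [h6]
      nlinarith
    have h5 : Φ = hψ.1.2.toLp ψ := by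
      rw [← sub_eq_zero, ← norm_eq_zero]
      exact pow_eq_zero_iff (two_ne_zero) |>.1 (le_antisymm h4 (sq_nonneg _))
    have h6 : φ =ᵐ[dA1] ψ := (MemLp.toLp_eq_toLp_iff hφ.2 hψ.1.2).1 h5
    have h7 := Measure.eqOn_open_of_ae_eq (ac_dA1.ae_eq h6) Metric.isOpen_ball
      hφ.1.continuousOn hψ.1.1.continuousOn
    exact fun z hz => (h7 hz).symm

end Pool.Agent.Lib.MP_6e4f46_an
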