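import Pool.Agent.Lib.MP_6e4f46_an.GStep

set_option autoImplicit false

namespace Pool.Agent.Lib.MP_6e4f46_an

open Finset

/-- The weighted absolute sum of the coefficients. -/
noncomputable def mass (N : ℕ) (g : ℕ → ℝ) : ℝ := ∑ k ∈ range N, (k + 1) * |g k|

theorem mass_nonneg (N : ℕ) (g : ℕ → ℝ) : 0 ≤ mass N g :=
  Finset.sum_nonneg fun k _ => by positivity

theorem sum_extend {N M : ℕ} {g : ℕ → ℝ} (h : ∀ k, N ≤ k → g k = 0) (hM : N ≤ M) (f : ℕ → ℝ) :
    ∑ k ∈ range M, f k * g k = ∑ k ∈ range N, f k * g k := by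
  symm
  apply Finset.sum_subset (Finset.range_mono hM)
  intro k _ hk
  simp only [Finset.mem_range, not_lt] at hk
  rw [h k hk, mul_zero]

theorem InvP.extend {n N M : ℕ} {g : ℕ → ℝ} {P : ℝ} (h : InvP n N g P) (hM : N ≤ M) :
    InvP n M g P := by
  have hc : ∀ d, corr M g d = corr N g d := fun d => sum_extend h.supp hM _
  refine ⟨h.pos.trans hM, h.zero, fun k hk => h.supp k (hM.trans hk), fun d h1 h2 => ?_, fun K => ?_⟩
  · rw [hc, h.kill d h1 h2]
  · simp only [hc]
    rw [sum_extend h.supp hM g]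
    exact h.pot K

theorem InvP.weaken {n N : ℕ} {g : ℕ → ℝ} {P Q : ℝ} (h : InvP n N g P) (hP : P ≤ Q) :
    InvP n N g Q :=
  ⟨h.pos, h.zero, h.supp, h.kill, fun K => (h.pot K).trans hP⟩

theorem single (n N M : ℕ) (g : ℕ → ℝ) (P a : ℝ) (h : InvP n N g P) (ha : 0 ≤ a)
    (hM : N + n ≤ M) :
    ∃ g' : ℕ → ℝ, InvP n (M + 1) g' (P + a * a + 5 * (mass N g * a / (M + 2))) ∧
      (∀ k, k < N → g' k = g k) ∧ mass (M + 1) g' = mass N g + (M + 1) * a ∧
      ∀ r, prim (M + 1) g' r = prim N g r + r ^ (M + 1) * a := by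
  classical
  let g' : ℕ → ℝ := fun k => g k + (if k = M then a else 0)
  have hsum : ∀ f : ℕ → ℝ, ∑ k ∈ range (M + 1), f k * g' k =
      ∑ k ∈ range N, f k * g k + f M * a := by
    intro f
    simp only [g', mul_add, Finset.sum_add_distrib, mul_ite, mul_zero, Finset.sum_ite_eq',
      Finset.mem_range]
    rw [if_pos (by omega), sum_extend h.supp (by omega)]
  have hagree : ∀ k, k < N → g' k = g k := by
    intro k hk
    simp only [g']
    rw [if_neg (by omega)]; ring
  have hgM : g' M = a := by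
    simp only [g']
    rw [h.supp M (by omega), if_pos trivial]; ring
  have hsupp : ∀ k, M + 1 ≤ k → g' k = 0 := by
    intro k hk
    simp only [g']
    rw [h.supp _ (by omega), if_neg (by omega)]; ring
  let X : ℕ → ℝ := fun j => ∑ k ∈ range N,
    ((k + 1) * (if k + j = M then a else 0) / (k + j + 2)) * g k
  have hcorr : ∀ j, 1 ≤ j → corr (M + 1) g' j = corr N g j + X j := by
    intro j hj
    unfold corr
    rw [hsum (fun k => (k + 1) * g' (k + j) / (k + j + 2)), hsupp (M + j) (by omega)]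
    simp only [X, ← Finset.sum_add_distrib, mul_zero, zero_div, zero_mul, add_zero]
    apply Finset.sum_congr rfl
    intro k _
    simp only [g']
    ring
  have hX0 : ∀ j, j ≤ n → X j = 0 := by
    intro j hj
    apply Finset.sum_eq_zero
    intro k hk
    simp only [Finset.mem_range] at hk
    rw [if_neg (by omega)]; ring
  have hXsum : ∀ K, ∑ j ∈ range K, |X (j + 1)| ≤ mass N g * a / (M + 2) := by
    intro K
    have h1 : ∀ j, |X (j + 1)| ≤ ∑ k ∈ range N, (k + 1) * |g k| / (M + 2) *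
        (if k + (j + 1) = M then a else 0) := by
      intro j
      refine (Finset.abs_sum_le_sum_abs _ _).trans (Finset.sum_le_sum fun k _ => ?_)
      by_cases h1 : k + (j + 1) = M
      · have h3 : (k : ℝ) + ((j + 1 : ℕ) : ℝ) = M := by exact_mod_cast h1
        rw [if_pos h1, h3, abs_mul, abs_of_nonneg (by positivity)]
        apply le_of_eq; ring
      · rw [if_neg h1]; simp
    refine (Finset.sum_le_sum fun j _ => h1 j).trans ?_
    rw [Finset.sum_comm, mass, Finset.sum_mul, Finset.sum_div]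
    refine Finset.sum_le_sum fun k _ => ?_
    rw [← Finset.mul_sum]
    have h2 : ∑ j ∈ range K, (if k + (j + 1) = M then a else 0) ≤ a := by
      calc ∑ j ∈ range K, (if k + (j + 1) = M then a else 0)
          ≤ ∑ j ∈ range K, (if j = M - k - 1 then a else 0) := by
            refine Finset.sum_le_sum fun j _ => ?_
            by_cases hj : k + (j + 1) = M
            · rw [if_pos hj, if_pos (by omega)]
            · rw [if_neg hj]; split_ifs
              · exact ha
              · exact le_rfl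
        _ ≤ a := by
            rw [Finset.sum_ite_eq']; split_ifs
            · exact le_rfl
            · exact ha
    have h5 : 0 ≤ ((k : ℝ) + 1) * |g k| / (M + 2) := by positivity
    calc _ ≤ ((k : ℝ) + 1) * |g k| / (M + 2) * a := mul_le_mul_of_nonneg_left h2 h5
      _ = _ := by ring
  refine ⟨g', ⟨by omega, ?_, hsupp, ?_, ?_⟩, hagree, ?_, fun r => hsum _⟩
  · rw [hagree 0 h.pos, h.zero]
  · intro j hj1 hj2
    rw [hcorr j hj1, hX0 j hj2, h.kill j hj1 hj2, add_zero]
  · intro K
    have h1 : ∑ k ∈ range (M + 1), g' k * g' k = ∑ k ∈ range N, g k * g k + a * a := by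
      rw [hsum g', hgM]
      congr 1
      exact Finset.sum_congr rfl fun k hk => by rw [hagree k (Finset.mem_range.1 hk)]
    have h4 : ∑ j ∈ range K, |corr (M + 1) g' (j + 1)| ≤
        ∑ j ∈ range K, |corr N g (j + 1)| + ∑ j ∈ range K, |X (j + 1)| := by
      rw [← Finset.sum_add_distrib]
      refine Finset.sum_le_sum fun j _ => ?_
      rw [hcorr (j + 1) (by omega)]
      exact abs_add_le _ _
    have h5 := hXsum K
    have h6 := h.pot K
    rw [h1]
    linarith
  · unfold mass
    rw [Finset.sum_range_succ, hgM, abs_of_nonneg ha]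
    congr 1
    rw [← sum_extend (g := fun k => |g k|) (M := M) (fun k hk => by simp [h.supp k hk]) (by omega)]
    refine Finset.sum_congr rfl fun k hk => ?_
    simp only [g']
    rw [if_neg (Finset.mem_range.1 hk).ne, add_zero]

theorem block (n N : ℕ) (g : ℕ → ℝ) (P a : ℝ) (h : InvP n N g P) (ha : 0 ≤ a) (hN : n + 1 ≤ N)
    (L : ℕ) :
    ∃ g' : ℕ → ℝ, InvP n (N * 2 ^ L) g'
        (P + 6 * L * (a * a) + 5 * (mass N g * a) * (1 / N - 1 / (N * 2 ^ L))) ∧
      (∀ k, k < N → g' k = g k) ∧ mass (N * 2 ^ L) g' ≤ mass N g + 2 * a * (N * 2 ^ L) ∧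
      ∀ r, 0 ≤ r → r ≤ 1 → prim N g r + L * a * r ^ (N * 2 ^ L) ≤ prim (N * 2 ^ L) g' r := by
  have hN0 : (0 : ℝ) < N := by exact_mod_cast (by omega : 0 < N)
  induction L with
  | zero =>
    refine ⟨g, by simpa using h, fun _ _ => rfl, ?_, fun r _ _ => by simp⟩
    simp only [pow_zero, mul_one, le_add_iff_nonneg_right]
    positivity
  | succ L ih =>
    obtain ⟨g1, h1, h2, h3, h4⟩ := ih
    have hle : N ≤ N * 2 ^ L := Nat.le_mul_of_pos_right _ (by positivity)
    obtain ⟨M, hM⟩ : ∃ M, M + 1 = N * 2 ^ (L + 1) := ⟨N * 2 ^ (L + 1) - 1, by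
      rw [pow_succ, ← mul_assoc]; omega⟩
    have hM2 : M + 1 = 2 * (N * 2 ^ L) := by rw [hM]; ring
    obtain ⟨g2, k1, k2, k3, k4⟩ := single n (N * 2 ^ L) M g1 _ a h1 ha (by omega)
    have hMr : (M : ℝ) + 1 = 2 * (N * 2 ^ L) := by exact_mod_cast hM2
    have hT : (0 : ℝ) < N * 2 ^ L := by positivity
    have hC := mass_nonneg N g
    rw [← hM]
    refine ⟨g2, k1.weaken ?_, fun k hk => (k2 k (by omega)).trans (h2 k hk), ?_, fun r r0 r1 => ?_⟩
    · have e1 : mass (N * 2 ^ L) g1 * a / (M + 2) ≤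
          (mass N g + 2 * a * (N * 2 ^ L)) * a / (2 * (N * 2 ^ L)) := by
        gcongr
        linarith
      have e2 : (mass N g + 2 * a * (N * 2 ^ L)) * a / (2 * (N * 2 ^ L)) =
          mass N g * a * (1 / (N * 2 ^ L) - 1 / (N * 2 ^ (L + 1))) + a * a := by
        field_simp
        ring
      push_cast
      nlinarith
    · rw [k3, pow_succ, hMr]
      nlinarith
    · rw [k4]
      have e1 := h4 r r0 r1
      have e2 : r ^ (M + 1) ≤ r ^ (N * 2 ^ L) := pow_le_pow_of_le_one r0 r1 (by omega)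
      have e3 : (L : ℝ) * a * r ^ (M + 1) ≤ L * a * r ^ (N * 2 ^ L) :=
        mul_le_mul_of_nonneg_left e2 (by positivity)
      push_cast
      nlinarith

end Pool.Agent.Lib.MP_6e4f46_an
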