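import Pool.Agent.Lib.MP_6e4f46_an.Extremal

set_option autoImplicit false

namespace Pool.Agent.Lib.MP_6e4f46_an

open MeasureTheory Set Filter Topology
open scoped InnerProductSpace

/-- The backward shift, iterated. -/
noncomputable def bs (k : ℕ) (f : ℂ → ℂ) : ℂ → ℂ := (Function.swap dslope (0 : ℂ))^[k] f

/-- The Taylor coefficient at the origin. -/
noncomputable def cf (f : ℂ → ℂ) (k : ℕ) : ℂ := bs k f 0

theorem bs_succ (k : ℕ) (f : ℂ → ℂ) : bs (k + 1) f = dslope (bs k f) 0 :=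
  Function.iterate_succ_apply' _ _ _

theorem bs_diff {f : ℂ → ℂ} (hf : DifferentiableOn ℂ f (Metric.ball 0 1)) (k : ℕ) :
    DifferentiableOn ℂ (bs k f) (Metric.ball 0 1) := by
  induction k with
  | zero => exact hf
  | succ k ih =>
    rw [bs_succ]
    exact (Complex.differentiableOn_dslope (Metric.ball_mem_nhds _ one_pos)).2 ih

theorem bs_decomp (f : ℂ → ℂ) (K : ℕ) (z : ℂ) :
    f z = ∑ j ∈ Finset.range K, cf f j * z ^ j + z ^ K * bs K f z := by
  induction K with
  | zero => simp [bs]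
  | succ K ih =>
    have := sub_smul_dslope (bs K f) 0 z
    rw [sub_zero, smul_eq_mul, ← bs_succ] at this
    rw [Finset.sum_range_succ, ih, pow_succ, cf]
    linear_combination (-z ^ K) * this

theorem cf_spec {f : ℂ → ℂ} (hf : DifferentiableOn ℂ f (Metric.ball 0 1)) {z : ℂ}
    (hz : ‖z‖ < 1) : HasSum (fun k => z ^ k * cf f k) (f z) ∧
      ∀ k, (k.factorial : ℂ) * cf f k = iteratedDeriv k f 0 := by
  obtain ⟨R, h1, h2⟩ := exists_between hz
  have h0 : 0 < R := (norm_nonneg z).trans_lt h1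
  lift R to NNReal using h0.le
  have hp := DifferentiableOn.hasFPowerSeriesOnBall (f := f) (c := 0) (R := R)
    (hf.mono (Metric.closedBall_subset_ball h2)) (by exact_mod_cast h0)
  have hc : ∀ k, cf f k = (cauchyPowerSeries f 0 R).coeff k := fun k => by
    have := (hp.hasFPowerSeriesAt.has_fpower_series_iterate_dslope_fslope k).coeff_zero 1
    rw [cf, bs, ← this]
    exact (FormalMultilinearSeries.coeff_iterate_fslope k 0).trans (by rw [zero_add])
  refine ⟨?_, fun k => ?_⟩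
  · have := hp.hasSum (y := z) (by simpa [Metric.mem_eball, edist_dist] using h1)
    simpa [hc] using this
  · have := hp.factorial_smul 1 k
    rw [hc, iteratedDeriv_eq_iteratedFDeriv, ← this]
    simp

theorem cf_shift {f : ℂ → ℂ} (hf : DifferentiableOn ℂ f (Metric.ball 0 1)) (k : ℕ) :
    cf (fun z => z * f z) (k + 1) = cf f k := by
  classical
  have h1 : dslope (fun z => z * f z) 0 = f := by
    have := dslope_sub_smul f 0
    simp only [sub_zero, smul_eq_mul] at this
    have h2 := (hasDerivAt_id (0 : ℂ)).mul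
      (hf.differentiableAt (Metric.ball_mem_nhds _ one_pos)).hasDerivAt
    rw [this, show deriv (fun x => x * f x) 0 = f 0 from h2.deriv.trans (by simp)]
    exact Function.update_eq_self _ _
  unfold cf bs
  rw [Function.iterate_succ_apply]
  exact congrArg (fun g => (Function.swap dslope (0 : ℂ))^[k] g 0) h1

theorem cf_zero (f : ℂ → ℂ) : cf f 0 = f 0 := rfl

theorem InA.mul_bdd {f g : ℂ → ℂ} (hf : InA f) (hg : DifferentiableOn ℂ g (Metric.ball 0 1))
    (C : ℝ) (h : ∀ z ∈ Metric.ball (0 : ℂ) 1, ‖g z‖ ≤ C) : InA (fun z => g z * f z) := by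
  refine ⟨hg.mul hf.1, hf.2.of_le_mul (c := C) (aesm_of_diff (hg.mul hf.1)) ?_⟩
  filter_upwards [ae_ball] with z hz
  rw [norm_mul]
  exact mul_le_mul_of_nonneg_right (h z hz) (norm_nonneg _)

theorem InA.shift {f : ℂ → ℂ} (hf : InA f) : InA (fun z => z * f z) :=
  hf.mul_bdd differentiableOn_id 1 fun z hz => le_of_lt (by simpa using hz)

theorem InA.norm_shift {f : ℂ → ℂ} (hf : InA f) :
    ‖hf.shift.2.toLp _‖ ≤ ‖hf.2.toLp f‖ := by
  refine Lp.norm_le_norm_of_ae_le ?_
  filter_upwards [ae_ball, hf.shift.2.coeFn_toLp, hf.2.coeFn_toLp] with z hz h1 h2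
  rw [h1, h2, norm_mul]
  exact mul_le_of_le_one_left (norm_nonneg _) (le_of_lt (by simpa using hz))

theorem InA.sub_mono {f : ℂ → ℂ} (hf : InA f) (b : ℂ) (k : ℕ) :
    ∃ h : InA (fun z => f z - b * z ^ k), h.2.toLp _ = hf.2.toLp f - b • mono k := by
  refine ⟨⟨hf.1.sub (by fun_prop), hf.2.sub ((memLp_pow k).const_smul b)⟩, ?_⟩
  rw [mono, ← MemLp.toLp_const_smul, ← MemLp.toLp_sub]
  rfl

theorem inner_mono_cf {f : ℂ → ℂ} (hf : InA f) (k : ℕ) :
    ⟪mono k, hf.2.toLp f⟫_ℂ = cf f k * (wt k : ℝ) := by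
  have := finite_dA1
  have key : ∀ J, J ≤ k → ∃ h : InA (fun z => z ^ J * bs J f z),
      ⟪mono k, hf.2.toLp f⟫_ℂ = ⟪mono k, h.2.toLp _⟫_ℂ := by
    intro J hJ
    induction J with
    | zero =>
      have e : (fun z => z ^ 0 * bs 0 f z) = f := by funext z; simp [bs]
      rw [e]
      exact ⟨hf, rfl⟩
    | succ J ih =>
      obtain ⟨h1, h2⟩ := ih (by omega)
      obtain ⟨h3, h4⟩ := h1.sub_mono (cf f J) J
      have e : (fun z => z ^ (J + 1) * bs (J + 1) f z) =
          fun z => z ^ J * bs J f z - cf f J * z ^ J := by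
        funext z
        have a := bs_decomp f J z
        have b := bs_decomp f (J + 1) z
        rw [Finset.sum_range_succ] at b
        linear_combination a - b
      rw [e]
      refine ⟨h3, ?_⟩
      rw [h2, h4, inner_sub_right, inner_smul_right, inner_mono, if_neg (by omega)]
      simp
  obtain ⟨h1, h2⟩ := key k le_rfl
  rw [h2, mono, inner_toLp]
  have h : ∀ z : ℂ, z ^ k * bs k f z * (starRingEnd ℂ) (z ^ k) =
      bs k f z * ((‖z‖ ^ (2 * k) : ℝ) : ℂ) := by
    intro z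
    have : z * (starRingEnd ℂ) z = ((‖z‖ ^ 2 : ℝ) : ℂ) := by
      rw [Complex.mul_conj, Complex.normSq_eq_norm_sq]
    rw [map_pow, pow_mul, Complex.ofReal_pow, ← this]
    ring
  simp_rw [h]
  apply mean_value _ (bs_diff hf.1 k) k
  simp_rw [← h]
  refine (h1.2.integrable (by norm_num)).mul_bdd (c := 1) (by fun_prop) ?_
  filter_upwards [ae_ball] with z hz
  rw [Complex.norm_conj, norm_pow]
  exact pow_le_one₀ (norm_nonneg _) (le_of_lt (by simpa using hz))

theorem norm_sub_mono (x : Lp ℂ 2 dA1) (b : ℂ) (k : ℕ) (h : ⟪mono k, x⟫_ℂ = b * (wt k : ℝ)) :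
    ‖x - b • mono k‖ ^ 2 = ‖x‖ ^ 2 - ‖b‖ ^ 2 * wt k := by
  rw [@norm_sub_sq ℂ, norm_smul, mul_pow, norm_mono_sq, inner_smul_right, ← inner_conj_symm, h,
    map_mul (starRingEnd ℂ), Complex.conj_ofReal, ← mul_assoc, Complex.mul_conj, Complex.normSq_eq_norm_sq,
    ← Complex.ofReal_mul]
  simp only [RCLike.re_to_complex, Complex.ofReal_re]
  ring

theorem energy (r : ℝ) (hr : r ^ 2 ≤ 1) (K : ℕ) : ∀ (f : ℂ → ℂ) (hf : InA f),
    ∑ k ∈ Finset.range K, ‖cf f k‖ ^ 2 * (wt k - r ^ 2 * wt (k + 1)) ≤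
      ‖hf.2.toLp f‖ ^ 2 - r ^ 2 * ‖hf.shift.2.toLp _‖ ^ 2 := by
  induction K with
  | zero =>
    intro f hf
    have h1 := pow_le_pow_left₀ (norm_nonneg _) hf.norm_shift 2
    have h2 := mul_le_of_le_one_left (sq_nonneg ‖hf.shift.2.toLp _‖) hr
    simp only [Finset.range_zero, Finset.sum_empty]
    linarith
  | succ K ih =>
    intro f hf
    obtain ⟨h1, h2⟩ := hf.sub_mono (cf f K) K
    obtain ⟨h3, h4⟩ := hf.shift.sub_mono (cf f K) (K + 1)
    have h5 : h1.shift.2.toLp _ = h3.2.toLp _ :=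
      MemLp.toLp_congr _ _ (Eventually.of_forall fun z => by simp only; ring)
    have h6 := ih _ h1
    rw [h5, h2, h4, norm_sub_mono _ _ _ (inner_mono_cf hf K),
      norm_sub_mono _ _ _ ((inner_mono_cf hf.shift (K + 1)).trans (by rw [cf_shift hf.1])),
      Finset.sum_congr rfl (g := fun k => ‖cf f k‖ ^ 2 * (wt k - r ^ 2 * wt (k + 1)))] at h6
    · rw [Finset.sum_range_succ]
      linarith
    · intro k hk
      have a := inner_mono_cf h1 k
      rw [h2, inner_sub_right, inner_smul_right, inner_mono,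
        if_neg (Finset.mem_range.1 hk).ne, inner_mono_cf hf k, mul_zero, sub_zero] at a
      rw [mul_right_cancel₀ (by exact_mod_cast (wt_pos k).ne') a]

end Pool.Agent.Lib.MP_6e4f46_an
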