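import Pool.Agent.Lib.MP_6e4f46_an.GBlock

set_option autoImplicit false

namespace Pool.Agent.Lib.MP_6e4f46_an

open Finset

/-- Invariant of the construction with dyadic blocks. -/
def InvG (n N : ℕ) (g : ℕ → ℝ) : Prop :=
  InvP n N g (19 - 18 / (n + 1)) ∧ ∀ r, 0 ≤ r → r ≤ 1 → 0 ≤ prim N g r

theorem invG_zero : InvG 0 1 (fun k => if k = 0 then 1 else 0) :=
  ⟨⟨inv_zero.pos, inv_zero.zero, inv_zero.supp, inv_zero.kill, fun K => by
    have := inv_zero.pot K
    norm_num at this ⊢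
    linarith⟩, fun r h _ => by simpa [prim] using h⟩

open Filter Topology in
theorem tendsto_inv_one_sub : Tendsto (fun r : ℝ => 1 / (1 - r)) (𝓝[<] 1) atTop := by
  simp only [one_div]
  refine tendsto_inv_nhdsGT_zero.comp (tendsto_nhdsWithin_iff.2 ⟨?_, ?_⟩)
  · have : Tendsto (fun r : ℝ => 1 - r) (𝓝 1) (𝓝 (1 - 1)) := tendsto_const_nhds.sub tendsto_id
    rw [sub_self] at this
    exact this.mono_left nhdsWithin_le_nhds
  · filter_upwards [self_mem_nhdsWithin] with r hr using sub_pos.2 (show r < 1 from hr)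

open Filter Topology in
theorem stepG (ω : ℝ → ℝ)
    (hω : ∀ ε : ℝ, 0 < ε → ∃ᶠ r in 𝓝[<] (1 : ℝ), ω r ≤ ε * √(Real.log (1 / (1 - r))))
    (n N : ℕ) (g : ℕ → ℝ) (h : InvG n N g) :
    ∃ (N' : ℕ) (g' : ℕ → ℝ), InvG (n + 1) N' g' ∧ RelP N g N' g' ∧
      ∃ r : ℝ, 0 ≤ r ∧ 1 - 1 / ((n : ℝ) + 1) < r ∧ r < 1 ∧
        (n + 1) * (ω r + 1) ≤ prim N' g' r := by
  obtain ⟨N1, g1, h1, h2⟩ := stepP n N g _ h.1
  set η : ℝ := 1 / ((n : ℝ) + 1) with hη
  have hn0 : (0 : ℝ) ≤ n := by positivity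
  have hη0 : 0 < η := by positivity
  have hη1 : η ≤ 1 := by rw [hη, div_le_one (by positivity)]; linarith
  have hηn : ((n : ℝ) + 1) * η = 1 := by rw [hη]; field_simp
  obtain ⟨M0, hM0⟩ := exists_nat_ge (5 * mass N1 g1 / η)
  set M : ℕ := M0 + N1 + n + 2 with hM
  have hMr : (0 : ℝ) < M := by positivity
  have hMM : (M0 : ℝ) ≤ M := by exact_mod_cast (by omega : M0 ≤ M)
  have hmass : mass M g1 = mass N1 g1 :=
    sum_extend (g := fun k => |g1 k|) (fun k hk => by simp [h1.supp k hk]) (by omega) _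
  have hprim : ∀ r, prim M g1 r = prim N1 g1 r := fun r => sum_extend h1.supp (by omega) _
  have t1 := tendsto_inv_one_sub
  have t2 := Real.tendsto_log_atTop.comp t1
  have t3 := Real.tendsto_sqrt_atTop.comp t2
  obtain ⟨r, r1, r2, r3, r4, r5⟩ := ((hω (η ^ 2 / 8) (by positivity)).and_eventually
    ((t1.eventually_ge_atTop (2 * M)).and ((t2.eventually_ge_atTop (2 * Real.log (4 * M) + 2)).and
      ((t3.eventually_ge_atTop (8 / η ^ 2)).and
        (Ioo_mem_nhdsLT (show 1 - η < 1 by linarith)))))).exists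
  simp only [Function.comp] at r3 r4
  have hr0 : 0 ≤ r := by linarith [r5.1]
  have hr1 : 0 < 1 - r := by linarith [r5.2]
  set x : ℝ := 1 / (1 - r) with hx
  set T : ℝ := Real.log x with hT
  obtain ⟨L, l1, l2⟩ := exists_nat_pow_near (x := x / (2 * M))
    (by rw [le_div_iff₀ (by positivity)]; linarith) (show (1 : ℝ) < 2 by norm_num)
  rw [le_div_iff₀ (by positivity)] at l1
  rw [div_lt_iff₀ (by positivity)] at l2
  have hlog : 0 ≤ Real.log (4 * M) := Real.log_nonneg (by
    have : (1 : ℝ) ≤ M := by exact_mod_cast (by omega : 1 ≤ M)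
    linarith)
  have hTL : T ≤ Real.log (4 * M) + L := by
    have e1 : T ≤ Real.log (4 * M * 2 ^ L) :=
      Real.log_le_log (by positivity) (by rw [pow_succ] at l2; linarith)
    rw [Real.log_mul (by positivity) (by positivity), Real.log_pow] at e1
    have e2 : Real.log 2 ≤ 1 := by
      have := Real.log_le_sub_one_of_pos (show (0 : ℝ) < 2 by norm_num)
      linarith
    have e3 : (L : ℝ) * Real.log 2 ≤ L * 1 := mul_le_mul_of_nonneg_left e2 (by positivity)
    linarith
  have hL1 : (1 : ℝ) ≤ L := by linarith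
  have hs1 : 1 ≤ √(L : ℝ) := Real.one_le_sqrt.2 hL1
  have hss : √(L : ℝ) * √(L : ℝ) = L := Real.mul_self_sqrt (by positivity)
  have hsT : √T ≤ 2 * √(L : ℝ) := by
    rw [Real.sqrt_le_left (by positivity)]
    nlinarith
  set a : ℝ := η / √(L : ℝ) with ha
  have ha0 : 0 ≤ a := by positivity
  have haη : a ≤ η := div_le_self hη0.le hs1
  have hLa : (L : ℝ) * a = η * √(L : ℝ) := by
    rw [ha, ← mul_div_assoc, div_eq_iff (by positivity), mul_assoc, hss]; ring
  have hLaa : (L : ℝ) * (a * a) = η ^ 2 := by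
    rw [← mul_assoc, hLa, ha]; field_simp
  obtain ⟨g2, k1, k2, -, k4⟩ := block (n + 1) M g1 _ a (h1.extend (by omega)) ha0 (by omega) L
  have hle : M ≤ M * 2 ^ L := Nat.le_mul_of_pos_right _ (by positivity)
  have hmono : ∀ r, 0 ≤ r → r ≤ 1 → prim N g r ≤ prim (M * 2 ^ L) g2 r := fun r r0 r1 => by
    have e1 := h2.mono r r0 r1
    have e2 := k4 r r0 r1
    have e3 : 0 ≤ (L : ℝ) * a * r ^ (M * 2 ^ L) := by positivity
    rw [hprim] at e2
    linarith
  refine ⟨M * 2 ^ L, g2, ⟨k1.weaken ?_, fun r r0 r1 => (h.2 r r0 r1).trans (hmono r r0 r1)⟩,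
    ⟨by have := h2.lt; omega, fun k hk => ?_, hmono⟩, r, hr0, r5.1, r5.2, ?_⟩
  · have hC := mass_nonneg N1 g1
    have e1 : 5 * (mass M g1 * a) * (1 / M - 1 / (M * 2 ^ L)) ≤ η ^ 2 := by
      rw [hmass]
      have e2 : 5 * mass N1 g1 ≤ M * η := by
        rw [div_le_iff₀ hη0] at hM0
        nlinarith
      have e3 : (0 : ℝ) ≤ 1 / (M * 2 ^ L) := by positivity
      calc 5 * (mass N1 g1 * a) * (1 / M - 1 / (M * 2 ^ L))
          ≤ 5 * (mass N1 g1 * a) * (1 / M) :=
            mul_le_mul_of_nonneg_left (by linarith) (by positivity)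
        _ = 5 * mass N1 g1 * a / M := by ring
        _ ≤ M * η * η / M := by gcongr
        _ = η ^ 2 := by field_simp
    have e2 : 1 / ((n + 1 : ℕ) : ℝ) ^ 2 = η ^ 2 := by rw [hη]; push_cast; field_simp
    have e3 : 9 * η ^ 2 ≤ 18 / ((n : ℝ) + 1) - 18 / (((n + 1 : ℕ) : ℝ) + 1) := by
      rw [hη]; push_cast
      rw [div_sub_div _ _ (by positivity) (by positivity), div_pow, mul_div_assoc',
        div_le_div_iff₀ (by positivity) (by positivity)]
      nlinarith
    rw [e2, mul_assoc 6, hLaa]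
    linarith
  · have := h2.lt
    rw [k2 k (by omega), h2.agree k hk]
  · have e1 : 1 / 2 ≤ r ^ (M * 2 ^ L) := by
      have e2 := one_add_mul_le_pow (show (-2 : ℝ) ≤ r - 1 by linarith) (M * 2 ^ L)
      rw [add_sub_cancel] at e2
      have e3 : x * (1 - r) = 1 := by rw [hx]; field_simp
      push_cast at e2
      nlinarith
    have e2 := k4 r hr0 r5.2.le
    have e3 := (h.2 r hr0 r5.2.le).trans (h2.mono r hr0 r5.2.le)
    rw [hprim, hLa] at e2
    have e4 : η * √(L : ℝ) * (1 / 2) ≤ η * √(L : ℝ) * r ^ (M * 2 ^ L) :=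
      mul_le_mul_of_nonneg_left e1 (by positivity)
    have e5 : 1 ≤ η ^ 2 / 8 * √T := by
      rw [div_le_iff₀ (by positivity)] at r4
      linarith
    have e6 : ((n : ℝ) + 1) * (ω r + 1) ≤ (n + 1) * (η ^ 2 / 4 * √T) :=
      mul_le_mul_of_nonneg_left (by linarith) (by positivity)
    have e7 : ((n : ℝ) + 1) * (η ^ 2 / 4 * √T) = η * √T / 4 := by
      calc _ = ((n : ℝ) + 1) * η * (η * √T / 4) := by ring
        _ = _ := by rw [hηn, one_mul]
    have e8 : η * √T ≤ η * (2 * √(L : ℝ)) := mul_le_mul_of_nonneg_left hsT hη0.le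
    linarith

open Filter Topology in
theorem exists_seqG (ω : ℝ → ℝ)
    (hω : ∀ ε : ℝ, 0 < ε → ∃ᶠ r in 𝓝[<] (1 : ℝ), ω r ≤ ε * √(Real.log (1 / (1 - r)))) :
    ∃ g : ℕ → ℝ, g 0 = 1 ∧ (Summable fun k => g k * g k) ∧
    (∀ d : ℕ, 1 ≤ d → HasSum (fun k : ℕ => ((k + 1) * g (k + d) / (k + d + 2)) * g k) 0) ∧
    ∀ n : ℕ, ∃ r : ℝ, 0 ≤ r ∧ 1 - 1 / ((n : ℝ) + 1) < r ∧ r < 1 ∧
      ∀ s, HasSum (fun k => r ^ (k + 1) * g k) s → (n + 1) * (ω r + 1) ≤ s := by
  choose FN Fg hInv hRel hGain using stepG ω hω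
  let sq : (n : ℕ) → {p : ℕ × (ℕ → ℝ) // InvG n p.1 p.2} := fun n =>
    Nat.rec (motive := fun n => {p : ℕ × (ℕ → ℝ) // InvG n p.1 p.2})
      ⟨(1, fun k => if k = 0 then 1 else 0), invG_zero⟩
      (fun n p => ⟨(FN n p.1.1 p.1.2 p.2, Fg n p.1.1 p.1.2 p.2), hInv n p.1.1 p.1.2 p.2⟩) n
  let N : ℕ → ℕ := fun n => (sq n).1.1
  let G : ℕ → ℕ → ℝ := fun n => (sq n).1.2
  have hI : ∀ n, InvP n (N n) (G n) (19 - 18 / (n + 1)) := fun n => (sq n).2.1
  have hR : ∀ n, RelP (N n) (G n) (N (n + 1)) (G (n + 1)) := fun n => hRel n _ _ (sq n).2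
  have hN : StrictMono N := strictMono_nat_of_lt_succ fun n => (hR n).lt
  have hNn : ∀ n, n < N n := by
    intro n
    induction n with
    | zero => exact (hI 0).pos
    | succ n ih => have := (hR n).lt; omega
  have hag : ∀ n m k, n ≤ m → k < N n → G m k = G n k := by
    intro n m k hnm hk
    induction m, hnm using Nat.le_induction with
    | base => rfl
    | succ m hnm ih => rw [(hR m).agree k (lt_of_lt_of_le hk (hN.monotone hnm)), ih]
  let g : ℕ → ℝ := fun k => G k k
  have hg : ∀ n k, k < N n → G n k = g k := by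
    intro n k hk
    rw [← hag n (max n k) k (le_max_left _ _) hk, hag k (max n k) k (le_max_right _ _) (hNn k)]
  have hsq : Summable fun k => g k * g k := by
    apply summable_of_sum_range_le (c := 19) (fun k => mul_self_nonneg _)
    intro K
    have h1 := (hI K).pot 0
    have h2 : ∑ k ∈ range K, g k * g k ≤ ∑ k ∈ range (N K), g k * g k :=
      Finset.sum_le_sum_of_subset_of_nonneg (Finset.range_mono (hNn K).le)
        fun k _ _ => mul_self_nonneg _
    have h3 : ∑ k ∈ range (N K), G K k * G K k = ∑ k ∈ range (N K), g k * g k :=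
      Finset.sum_congr rfl fun k hk => by rw [hg K k (Finset.mem_range.1 hk)]
    have h4 : (0 : ℝ) ≤ 18 / (K + 1) := by positivity
    simp only [Finset.range_zero, Finset.sum_empty, mul_zero, add_zero] at h1
    linarith
  have hprim : ∀ n r, prim (N n) (G n) r = ∑ k ∈ range (N n), r ^ (k + 1) * g k := by
    intro n r
    exact Finset.sum_congr rfl fun k hk => by rw [hg n k (Finset.mem_range.1 hk)]
  refine ⟨g, (hI 0).zero, hsq, ?_, ?_⟩
  · intro d hd
    have hs : Summable (fun k : ℕ => ((k + 1) * g (k + d) / (k + d + 2)) * g k) := by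
      have h1 : Summable fun k => g (k + d) * g (k + d) := (summable_nat_add_iff d).2 hsq
      refine Summable.of_norm_bounded (h1.add hsq) fun k => ?_
      have hk : (0 : ℝ) ≤ k := by positivity
      have hd0 : (0 : ℝ) ≤ d := by positivity
      have h2 : ((k : ℝ) + 1) / (k + d + 2) ≤ 1 := by
        rw [div_le_one (by positivity)]; linarith
      have h3 : 0 ≤ ((k : ℝ) + 1) / (k + d + 2) := by positivity
      rw [show ((k : ℝ) + 1) * g (k + d) / (k + d + 2) * g k =
        ((k : ℝ) + 1) / (k + d + 2) * (g (k + d) * g k) by ring, Real.norm_eq_abs, abs_mul,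
        abs_of_nonneg h3, abs_mul]
      have h4 := abs_nonneg (g (k + d))
      have h5 := abs_nonneg (g k)
      have h6 := abs_mul_abs_self (g (k + d))
      have h7 := abs_mul_abs_self (g k)
      have h8 : 0 ≤ |g (k + d)| * |g k| := by positivity
      nlinarith [sq_nonneg (|g (k + d)| - |g k|)]
    have ht : Tendsto (fun n => N n - d) atTop atTop :=
      (tendsto_sub_atTop_nat d).comp hN.tendsto_atTop
    have h1 := hs.hasSum.tendsto_sum_nat.comp ht
    have h2 : Tendsto ((fun n => ∑ k ∈ range n,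
        (((k : ℝ) + 1) * g (k + d) / (k + d + 2)) * g k) ∘ fun n => N n - d) atTop (𝓝 0) := by
      apply tendsto_const_nhds.congr'
      filter_upwards [eventually_ge_atTop d] with n hn
      rw [← (hI n).kill d hd hn]
      unfold corr
      simp only [Function.comp]
      rw [← Finset.sum_subset (Finset.range_mono (Nat.sub_le (N n) d))]
      · apply Finset.sum_congr rfl
        intro k hk
        have := Finset.mem_range.1 hk
        rw [hg n k (by omega), hg n (k + d) (by omega)]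
      · intro k _ hk
        simp only [Finset.mem_range, not_lt] at hk
        rw [(hI n).supp (k + d) (by omega)]; simp
    rw [← tendsto_nhds_unique h1 h2]
    exact hs.hasSum
  · intro n
    obtain ⟨r, hr0, hr1, hr2, hr3⟩ := hGain n _ _ (sq n).2
    refine ⟨r, hr0, hr1, hr2, fun s hs => hr3.trans ?_⟩
    have hmono : Monotone fun m => prim (N m) (G m) r :=
      monotone_nat_of_le_succ fun m => (hR m).mono r hr0 hr2.le
    have ht : Tendsto (fun m => prim (N m) (G m) r) atTop (𝓝 s) := by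
      simp only [hprim]
      exact hs.tendsto_sum_nat.comp hN.tendsto_atTop
    exact hmono.ge_of_tendsto ht (n + 1)

end Pool.Agent.Lib.MP_6e4f46_an
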