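import Pool.Agent.Lib.MP_6e4f46_an.Seq

set_option autoImplicit false

namespace Pool.Agent.Lib.MP_6e4f46_an

open Finset

/-- Invariant of the recursive construction, with a free energy bound. -/
structure InvP (n N : ℕ) (g : ℕ → ℝ) (P : ℝ) : Prop where
  pos : 1 ≤ N
  zero : g 0 = 1
  supp : ∀ k, N ≤ k → g k = 0
  kill : ∀ d, 1 ≤ d → d ≤ n → corr N g d = 0
  pot : ∀ K, ∑ k ∈ range N, g k * g k + 5 * ∑ d ∈ range K, |corr N g (d + 1)| ≤ P

/-- A later stage extends an earlier one. -/
structure RelP (N : ℕ) (g : ℕ → ℝ) (N' : ℕ) (g' : ℕ → ℝ) : Prop where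
  lt : N < N'
  agree : ∀ k, k < N → g' k = g k
  mono : ∀ r, 0 ≤ r → r ≤ 1 → prim N g r ≤ prim N' g' r

theorem stepP (n N : ℕ) (g : ℕ → ℝ) (P : ℝ) (h : InvP n N g P) :
    ∃ (N' : ℕ) (g' : ℕ → ℝ), InvP (n + 1) N' g' (P + 2 * (1 / ((n + 1 : ℕ) : ℝ) ^ 2)) ∧
      RelP N g N' g' := by
  classical
  set d : ℕ := n + 1 with hd
  set e : ℝ := corr N g d with he
  have hdpos : (0 : ℝ) < d := by rw [hd]; positivity
  set a : ℝ := Real.sqrt (1 / (d : ℝ) ^ 2 + 4 * |e|) with ha
  have ha2 : a ^ 2 = 1 / (d : ℝ) ^ 2 + 4 * |e| := Real.sq_sqrt (by positivity)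
  have hapos : 0 < a := Real.sqrt_pos.2 (by positivity)
  have had : 1 / (d : ℝ) ≤ a := by
    apply Real.le_sqrt_of_sq_le
    have := abs_nonneg e
    rw [div_pow, one_pow]; linarith
  set C : ℝ := ∑ k ∈ range N, (k + 1) * |g k| with hC
  have hC0 : 0 ≤ C := Finset.sum_nonneg fun k _ => by positivity
  obtain ⟨M0, hM0⟩ := exists_nat_ge (10 * C * a * (d : ℝ) ^ 2)
  set M : ℕ := M0 + N + d with hM
  have hMd : (d : ℝ) ≤ M := by rw [hM]; push_cast; have : (0:ℝ) ≤ M0 := by positivity
                               have : (0:ℝ) ≤ N := by positivity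
                               linarith
  have hMM0 : (M0 : ℝ) ≤ M := by rw [hM]; push_cast; have : (0:ℝ) ≤ N := by positivity
                                 linarith
  have hM0' : (0 : ℝ) ≤ M := by positivity
  set b : ℝ := -e * (M + d + 2) / ((M + 1) * a) with hb
  have hba : |b| ≤ a / 2 := by
    rw [hb, abs_div, abs_mul, abs_neg, abs_of_pos (by positivity : (0:ℝ) < M + d + 2),
      abs_of_pos (by positivity : (0:ℝ) < (M + 1) * a), div_le_iff₀ (by positivity)]
    have h1 : |e| * (M + d + 2) ≤ |e| * (2 * (M + 1)) :=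
      mul_le_mul_of_nonneg_left (by linarith) (abs_nonneg e)
    have h2 : 4 * |e| ≤ a ^ 2 := by rw [ha2]; have : 0 ≤ 1 / (d : ℝ) ^ 2 := by positivity
                                    linarith
    nlinarith
  have hab : ((M : ℝ) + 1) * b / (M + d + 2) * a = -e := by
    rw [hb]; field_simp
  let g' : ℕ → ℝ := fun k => g k + (if k = M then a else 0) + (if k = M + d then b else 0)
  have hsum : ∀ f : ℕ → ℝ, ∑ k ∈ range (M + d + 1), f k * g' k =
      ∑ k ∈ range N, f k * g k + f M * a + f (M + d) * b := by
    intro f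
    simp only [g', mul_add, Finset.sum_add_distrib, mul_ite, mul_zero, Finset.sum_ite_eq',
      Finset.mem_range]
    rw [if_pos (by omega), if_pos (by omega)]
    congr 2
    symm
    apply Finset.sum_subset
    · intro k hk; simp only [Finset.mem_range] at hk ⊢; omega
    · intro k _ hk
      simp only [Finset.mem_range, not_lt] at hk
      rw [h.supp k hk, mul_zero]
  have hagree : ∀ k, k < N → g' k = g k := by
    intro k hk
    simp only [g']
    rw [if_neg (by omega), if_neg (by omega)]; ring
  have hgM : g' M = a := by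
    simp only [g']
    rw [h.supp M (by omega), if_pos trivial, if_neg (by omega)]; ring
  have hgMd : g' (M + d) = b := by
    simp only [g']
    rw [h.supp (M + d) (by omega), if_neg (by omega), if_pos trivial]; ring
  -- cross terms
  let X : ℕ → ℝ := fun j => ∑ k ∈ range N, ((k + 1) * ((if k + j = M then a else 0) +
      (if k + j = M + d then b else 0)) / (k + j + 2)) * g k
  have hcorr : ∀ j, 1 ≤ j → corr (M + d + 1) g' j = corr N g j + X j + (if j = d then -e else 0) := by
    intro j hj
    unfold corr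
    rw [hsum (fun k => (k + 1) * g' (k + j) / (k + j + 2))]
    have h1 : g' (M + d + j) = 0 := by
      simp only [g']
      rw [h.supp _ (by omega), if_neg (by omega), if_neg (by omega)]; ring
    have h2 : ((M : ℝ) + 1) * g' (M + j) / (M + j + 2) * a = if j = d then -e else 0 := by
      by_cases hjd : j = d
      · rw [if_pos hjd, hjd, hgMd, hab]
      · rw [if_neg hjd]
        simp only [g']
        rw [h.supp _ (by omega), if_neg (by omega), if_neg (by omega)]; ring
    rw [h1, h2]
    simp only [X, ← Finset.sum_add_distrib, mul_zero, zero_div, zero_mul, add_zero]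
    congr 1
    apply Finset.sum_congr rfl
    intro k _
    simp only [g']
    ring
  have hX0 : ∀ j, j ≤ d → X j = 0 := by
    intro j hj
    apply Finset.sum_eq_zero
    intro k hk
    simp only [Finset.mem_range] at hk
    rw [if_neg (by omega), if_neg (by omega)]; ring
  have hXsum : ∀ K, ∑ j ∈ range K, |X (j + 1)| ≤ C * (3 / 2 * a) / (M + 2) := by
    intro K
    have h1 : ∀ j, |X (j + 1)| ≤ ∑ k ∈ range N, (k + 1) * |g k| / (M + 2) *
        ((if k + (j + 1) = M then a else 0) + (if k + (j + 1) = M + d then a / 2 else 0)) := by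
      intro j
      refine (Finset.abs_sum_le_sum_abs _ _).trans (Finset.sum_le_sum fun k _ => ?_)
      have hk0 : (0 : ℝ) ≤ k := by positivity
      have hg0 := abs_nonneg (g k)
      by_cases h1 : k + (j + 1) = M
      · have h2 : ¬ (k + (j + 1) = M + d) := by omega
        have h3 : (k : ℝ) + ((j + 1 : ℕ) : ℝ) = M := by exact_mod_cast h1
        rw [if_pos h1, if_neg h2, if_neg h2, h3, add_zero, abs_mul, abs_of_pos (by positivity)]
        apply le_of_eq; ring
      · by_cases h2 : k + (j + 1) = M + d
        · have h3 : (k : ℝ) + ((j + 1 : ℕ) : ℝ) = M + d := by exact_mod_cast h2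
          rw [if_neg h1, if_pos h2, if_pos h2, h3, zero_add, zero_add, abs_mul, abs_div, abs_mul,
            abs_of_pos (by positivity : (0:ℝ) < k + 1),
            abs_of_pos (by positivity : (0:ℝ) < M + d + 2)]
          have h4 : ((k : ℝ) + 1) * |b| / (M + d + 2) ≤ (k + 1) * (a / 2) / (M + 2) := by
            gcongr
            linarith
          calc ((k : ℝ) + 1) * |b| / (M + d + 2) * |g k|
              ≤ (k + 1) * (a / 2) / (M + 2) * |g k| := mul_le_mul_of_nonneg_right h4 hg0
            _ = _ := by ring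
        · rw [if_neg h1, if_neg h2, if_neg h2]; simp
    refine (Finset.sum_le_sum fun j _ => h1 j).trans ?_
    rw [Finset.sum_comm, hC, Finset.sum_mul, Finset.sum_div]
    refine Finset.sum_le_sum fun k _ => ?_
    rw [← Finset.mul_sum, Finset.sum_add_distrib]
    have h2 : ∀ (c : ℝ) (L : ℕ), 0 ≤ c →
        ∑ j ∈ range K, (if k + (j + 1) = L then c else 0) ≤ c := by
      intro c L hc
      calc ∑ j ∈ range K, (if k + (j + 1) = L then c else 0)
          ≤ ∑ j ∈ range K, (if j = L - k - 1 then c else 0) := by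
            refine Finset.sum_le_sum fun j _ => ?_
            by_cases hj : k + (j + 1) = L
            · rw [if_pos hj, if_pos (by omega)]
            · rw [if_neg hj]; split_ifs
              · exact hc
              · exact le_rfl
        _ ≤ c := by
            rw [Finset.sum_ite_eq']; split_ifs
            · exact le_rfl
            · exact hc
    have h3 := h2 a M hapos.le
    have h4 := h2 (a / 2) (M + d) (by positivity)
    have h5 : 0 ≤ ((k : ℝ) + 1) * |g k| / (M + 2) := by positivity
    calc _ ≤ ((k : ℝ) + 1) * |g k| / (M + 2) * (a + a / 2) :=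
          mul_le_mul_of_nonneg_left (add_le_add h3 h4) h5
      _ = _ := by ring
  have hXsmall : 5 * (C * (3 / 2 * a) / (M + 2)) ≤ 3 / 4 * (1 / (d : ℝ) ^ 2) := by
    rw [← mul_div_assoc, mul_one_div, div_le_div_iff₀ (by positivity) (by positivity)]
    nlinarith
  refine ⟨M + d + 1, g', ⟨by omega, ?_, ?_, ?_, ?_⟩, ⟨by omega, hagree, ?_⟩⟩
  · rw [hagree 0 h.pos, h.zero]
  · intro k hk
    simp only [g']
    rw [h.supp _ (by omega), if_neg (by omega), if_neg (by omega)]; ring
  · intro j hj1 hj2
    rw [hcorr j hj1, hX0 j hj2]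
    by_cases hjd : j = d
    · rw [if_pos hjd, hjd]; ring
    · rw [if_neg hjd, h.kill j hj1 (by omega)]; ring
  · intro K
    have h1 : ∑ k ∈ range (M + d + 1), g' k * g' k =
        ∑ k ∈ range N, g k * g k + a * a + b * b := by
      rw [hsum g', hgM, hgMd]
      congr 2
      exact Finset.sum_congr rfl fun k hk => by rw [hagree k (Finset.mem_range.1 hk)]
    have h2 : ∑ j ∈ range K, |corr (M + d + 1) g' (j + 1)| ≤
        ∑ j ∈ range (K + d), |corr (M + d + 1) g' (j + 1)| :=
      Finset.sum_le_sum_of_subset_of_nonneg (Finset.range_mono (by omega))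
        fun j _ _ => abs_nonneg _
    have h3 : ∀ j, |corr (M + d + 1) g' (j + 1)| ≤
        |corr N g (j + 1)| + |X (j + 1)| - (if j = n then |e| else 0) := by
      intro j
      rw [hcorr (j + 1) (by omega)]
      by_cases hj : j = n
      · rw [if_pos (by omega), if_pos hj, hj, ← hd, ← he]
        apply le_of_eq
        rw [show e + X d + -e = X d by ring]; ring
      · rw [if_neg (by omega), if_neg hj, add_zero, sub_zero]
        exact abs_add_le _ _
    have h4 : ∑ j ∈ range (K + d), |corr (M + d + 1) g' (j + 1)| ≤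
        ∑ j ∈ range (K + d), |corr N g (j + 1)| + ∑ j ∈ range (K + d), |X (j + 1)| - |e| := by
      refine (Finset.sum_le_sum fun j _ => h3 j).trans ?_
      rw [Finset.sum_sub_distrib, Finset.sum_add_distrib, Finset.sum_ite_eq',
        if_pos (Finset.mem_range.2 (by omega))]
    have h5 := hXsum (K + d)
    have h6 := h.pot (K + d)
    have h7 : b * b ≤ a ^ 2 / 4 := by
      have := abs_mul_abs_self b
      have h0 := abs_nonneg b
      nlinarith
    rw [h1]
    nlinarith
  · intro r hr0 hr1
    unfold prim
    rw [hsum (fun k => r ^ (k + 1))]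
    have h1 : r ^ (M + d + 1) ≤ r ^ (M + 1) := pow_le_pow_of_le_one hr0 hr1 (by omega)
    have h2 : 0 ≤ r ^ (M + d + 1) := by positivity
    have h3 : -(a / 2) ≤ b := (abs_le.1 hba).1
    nlinarith

end Pool.Agent.Lib.MP_6e4f46_an
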