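import Pool.Agent.Lib.MP_6e4f46_an.GCoef

set_option autoImplicit false

namespace Pool.Agent.Lib.MP_6e4f46_an

open MeasureTheory Set Filter Topology
open scoped InnerProductSpace

theorem gen_mul {H f : ℂ → ℂ} (hf : f ∈ gen H) (q : Polynomial ℂ) :
    (fun z => q.eval z * f z) ∈ gen H := by
  obtain ⟨C, hC⟩ := (isCompact_closedBall (0 : ℂ) 1).exists_bound_of_continuousOn
    q.continuous.continuousOn
  have hC' : ∀ z ∈ Metric.ball (0 : ℂ) 1, ‖q.eval z‖ ≤ C :=
    fun z hz => hC z (Metric.ball_subset_closedBall hz)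
  refine ⟨hf.1.mul_bdd q.differentiable.differentiableOn C hC', fun ε hε => ?_⟩
  obtain ⟨δ, h1, h2⟩ := ENNReal.exists_nnreal_pos_mul_lt (a := ENNReal.ofReal C)
    ENNReal.ofReal_ne_top hε.ne'
  obtain ⟨p, hp⟩ := hf.2 δ (by exact_mod_cast h1)
  refine ⟨q * p, lt_of_le_of_lt ?_ h2⟩
  refine (eLpNorm_le_mul_eLpNorm_of_ae_le_mul (g := fun z => f z - H z * p.eval z) (c := C) ?_
    2).trans ?_
  · filter_upwards [ae_ball] with z hz
    rw [Polynomial.eval_mul, show q.eval z * f z - H z * (q.eval z * p.eval z) =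
      q.eval z * (f z - H z * p.eval z) by ring, norm_mul]
    exact mul_le_mul_of_nonneg_right (hC' z hz) (norm_nonneg _)
  · rw [mul_comm]
    exact mul_le_mul_left hp.le _

theorem InA.pow_mul {f : ℂ → ℂ} (hf : InA f) (d : ℕ) : InA (fun z => z ^ d * f z) :=
  hf.mul_bdd (by fun_prop) 1 fun z hz => by
    rw [norm_pow]
    exact pow_le_one₀ (norm_nonneg _) (le_of_lt (by simpa using hz))

theorem wt_ne (k : ℕ) : ((wt k : ℝ) : ℂ) ≠ 0 := by exact_mod_cast (wt_pos k).ne'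

theorem inner_orth {H φ : ℂ → ℂ} (h : IsBergmanInner (gen H) φ) :
    ∃ hφ : InA φ, ‖hφ.2.toLp φ‖ ≤ 1 ∧
      ∀ d, 1 ≤ d → ⟪hφ.2.toLp φ, (hφ.pow_mul d).2.toLp _⟫_ℂ = 0 := by
  obtain ⟨k, h1, ⟨f, hf, hf0⟩, hφ, h2, h3⟩ := h
  have hk : (0 : ℝ) < k.factorial := by exact_mod_cast k.factorial_pos
  have hcf : ∀ g (hg : InA g) j, (j.factorial : ℂ) * cf g j = iteratedDeriv j g 0 :=
    fun g hg => (cf_spec hg.1 (z := 0) (by simp)).2
  have hle : ∀ g (hg : g ∈ gen H), ‖hg.1.2.toLp g‖ ≤ 1 → (cf g k).re ≤ (cf φ k).re := by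
    intro g hg hn
    have := h3 g hg (by
      rw [Lp.norm_toLp] at hn
      exact (ENNReal.toReal_le_toReal hg.1.2.2.ne ENNReal.one_ne_top).1 (by simpa using hn))
    rw [← hcf g hg.1, ← hcf φ hφ.1, ← Complex.ofReal_natCast, Complex.re_ofReal_mul,
      Complex.re_ofReal_mul] at this
    exact le_of_mul_le_mul_left this hk
  have hcomb : ∀ g (hg : g ∈ gen H) (d : ℕ) (a b : ℂ),
      ‖a • hg.1.2.toLp g + b • (hg.1.pow_mul d).2.toLp _‖ ≤ 1 →
      (a * cf g k + b * cf (fun z => z ^ d * g z) k).re ≤ (cf φ k).re := by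
    intro g hg d a b hn
    have h4 := gen_mul hg (Polynomial.C a + Polynomial.C b * Polynomial.X ^ d)
    have h5 : h4.1.2.toLp _ = a • hg.1.2.toLp g + b • (hg.1.pow_mul d).2.toLp _ := by
      rw [← MemLp.toLp_const_smul, ← MemLp.toLp_const_smul, ← MemLp.toLp_add]
      exact MemLp.toLp_congr _ _ (Eventually.of_forall fun z => by simp; ring)
    have h6 := inner_mono_cf h4.1 k
    rw [h5, inner_add_right, inner_smul_right, inner_smul_right, inner_mono_cf hg.1,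
      inner_mono_cf (hg.1.pow_mul d), ← mul_assoc, ← mul_assoc, ← add_mul] at h6
    rw [mul_right_cancel₀ (wt_ne k) h6]
    exact hle _ h4 (h5 ▸ hn)
  have hpos : 0 < (cf φ k).re := by
    have e0 : cf f k ≠ 0 := fun e => hf0 (by rw [← hcf f hf.1, e, mul_zero])
    have e1 : 0 < ‖cf f k‖ := norm_pos_iff.2 e0
    have e2 := norm_nonneg (hf.1.2.toLp f)
    set t : ℝ := (‖cf f k‖ * (‖hf.1.2.toLp f‖ + 1))⁻¹ with ht
    have e3 : 0 < t := by positivity
    have := hcomb f hf 0 (t * (starRingEnd ℂ) (cf f k)) 0 (by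
      rw [zero_smul, add_zero, norm_smul, norm_mul, Complex.norm_conj, Complex.norm_real,
        Real.norm_eq_abs, abs_of_pos e3, ht, mul_assoc, inv_mul_le_iff₀ (by positivity)]
      nlinarith)
    rw [zero_mul, add_zero, mul_assoc, mul_comm _ (cf f k), Complex.mul_conj,
      ← Complex.ofReal_mul, Complex.ofReal_re] at this
    exact (mul_pos e3 (Complex.normSq_pos.2 e0)).trans_le this
  have hz : ∀ d j, j < k + d → cf (fun z => z ^ d * φ z) j = 0 := by
    intro d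
    induction d with
    | zero =>
      intro j hj
      have e : (fun z => z ^ 0 * φ z) = φ := by funext z; simp
      have := hcf φ hφ.1 j
      rw [h1 φ hφ j hj] at this
      rw [e]
      exact (mul_eq_zero.1 this).resolve_left (by exact_mod_cast j.factorial_ne_zero)
    | succ d ih =>
      intro j hj
      have e : (fun z => z ^ (d + 1) * φ z) = fun z => z * (z ^ d * φ z) := by funext z; ring
      rw [e]
      cases j with
      | zero => simp [cf_zero]
      | succ j => rw [cf_shift (hφ.1.pow_mul d).1, ih j (by omega)]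
  have hn := norm_toLp_le_one hφ.1.2 h2
  refine ⟨hφ.1, hn, fun d hd => ?_⟩
  set Φ := hφ.1.2.toLp φ
  set Ψ := (hφ.1.pow_mul d).2.toLp _
  have hge : ∀ b : ℂ, 1 ≤ ‖Φ + b • Ψ‖ := by
    intro b
    by_contra hlt
    have e0 := norm_nonneg (Φ + b • Ψ)
    set c : ℝ := 2 / (1 + ‖Φ + b • Ψ‖) with hc
    have e1 : 1 < c := by rw [hc, lt_div_iff₀ (by positivity)]; linarith
    have := hcomb φ hφ d c (c * b) (by
      rw [mul_smul, ← smul_add, norm_smul, Complex.norm_real, Real.norm_eq_abs,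
        abs_of_pos (by linarith), hc, div_mul_eq_mul_div, div_le_one (by positivity)]
      linarith)
    rw [hz d k (by omega), mul_zero, add_zero, Complex.re_ofReal_mul] at this
    nlinarith
  set s := ⟪Φ, Ψ⟫_ℂ with hs
  set t : ℝ := (‖Ψ‖ ^ 2 + 1)⁻¹ with ht
  have e3 : 0 < t := by positivity
  have e4 : t * (‖Ψ‖ ^ 2 + 1) = 1 := inv_mul_cancel₀ (by positivity)
  have e5 := pow_le_pow_left₀ zero_le_one (hge (-(t * (starRingEnd ℂ) s))) 2
  rw [@norm_add_sq ℂ, inner_smul_right, ← hs, norm_smul, norm_neg, norm_mul, Complex.norm_conj,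
    Complex.norm_real, Real.norm_eq_abs, abs_of_pos e3, neg_mul, mul_assoc _ _ s, mul_comm _ s,
    Complex.mul_conj, Complex.normSq_eq_norm_sq, ← Complex.ofReal_mul, ← Complex.ofReal_neg] at e5
  simp only [RCLike.re_to_complex, Complex.ofReal_re] at e5
  have e6 := pow_le_pow_left₀ (norm_nonneg _) hn 2
  have e7 : (t * ‖s‖ * ‖Ψ‖) ^ 2 ≤ t * ‖s‖ ^ 2 := by
    have : (t * ‖s‖ * ‖Ψ‖) ^ 2 = t * ‖s‖ ^ 2 * (t * ‖Ψ‖ ^ 2) := by ring
    rw [this]
    exact mul_le_of_le_one_right (by positivity) (by nlinarith)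
  have e8 : t * ‖s‖ ^ 2 ≤ 0 := by linarith
  have e9 : ‖s‖ ^ 2 ≤ 0 := by
    by_contra h
    exact absurd e8 (not_le.2 (mul_pos e3 (not_le.1 h)))
  exact norm_eq_zero.1 (pow_eq_zero_iff two_ne_zero |>.1 (le_antisymm e9 (sq_nonneg _)))

theorem coef_bound {φ : ℂ → ℂ} (hφ : InA φ) (hn : ‖hφ.2.toLp φ‖ ≤ 1)
    (ho : ∀ d, 1 ≤ d → ⟪hφ.2.toLp φ, (hφ.pow_mul d).2.toLp _⟫_ℂ = 0) {r : ℝ} (h0 : 0 ≤ r)
    (h1 : r < 1) :
    ∃ b : ℕ → ℂ, b 0 = cf φ 0 ∧ (∀ k, b (k + 1) = cf φ (k + 1) + r * b k) ∧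
      Tendsto (fun k => (r : ℂ) ^ k * b k) atTop (𝓝 0) ∧
      ∀ K, ∑ k ∈ Finset.range K, ‖b k‖ ^ 2 * (wt k - r ^ 2 * wt (k + 1)) ≤ 1 := by
  have hb : ∀ z ∈ Metric.ball (0 : ℂ) 1, 1 - r ≤ ‖1 - r * z‖ := fun z hz => by
    have e1 := norm_sub_norm_le (1 : ℂ) (r * z)
    rw [norm_one, norm_mul, Complex.norm_real, Real.norm_eq_abs, abs_of_nonneg h0] at e1
    have e2 : ‖z‖ ≤ 1 := le_of_lt (by simpa using hz)
    nlinarith
  have hne : ∀ z ∈ Metric.ball (0 : ℂ) 1, (1 - r * z : ℂ) ≠ 0 := fun z hz =>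
    norm_pos_iff.1 (lt_of_lt_of_le (by linarith) (hb z hz))
  have hψ : InA (fun z => (1 - r * z)⁻¹ * φ z) :=
    hφ.mul_bdd (DifferentiableOn.inv (by fun_prop) hne) (1 - r)⁻¹ fun z hz => by
      rw [norm_inv]
      exact inv_anti₀ (by linarith) (hb z hz)
  set ψ : ℂ → ℂ := fun z => (1 - r * z)⁻¹ * φ z with hψd
  have hrec : ∀ d, (hψ.pow_mul d).2.toLp _ =
      (hφ.pow_mul d).2.toLp _ + (r : ℂ) • (hψ.pow_mul (d + 1)).2.toLp _ := by
    intro d
    rw [← MemLp.toLp_const_smul, ← MemLp.toLp_add]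
    refine MemLp.toLp_congr _ _ ?_
    filter_upwards [ae_ball] with z hz
    have := hne z hz
    simp only [hψd, Pi.add_apply, Pi.smul_apply, smul_eq_mul]
    field_simp
    ring
  have hbd : ∀ d, ‖(hψ.pow_mul d).2.toLp _‖ ≤ ‖hψ.2.toLp ψ‖ := fun d => by
    refine Lp.norm_le_norm_of_ae_le ?_
    filter_upwards [ae_ball, (hψ.pow_mul d).2.coeFn_toLp, hψ.2.coeFn_toLp] with z hz e1 e2
    rw [e1, e2, norm_mul, norm_pow]
    exact mul_le_of_le_one_left (norm_nonneg _)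
      (pow_le_one₀ (norm_nonneg _) (le_of_lt (by simpa using hz)))
  have hit : ∀ n, ⟪hφ.2.toLp φ, (hψ.pow_mul 1).2.toLp _⟫_ℂ =
      (r : ℂ) ^ n * ⟪hφ.2.toLp φ, (hψ.pow_mul (n + 1)).2.toLp _⟫_ℂ := by
    intro n
    induction n with
    | zero => simp
    | succ n ih =>
      rw [ih, hrec (n + 1), inner_add_right, ho _ (by omega), inner_smul_right]
      ring
  have horth : ⟪hφ.2.toLp φ, (hψ.pow_mul 1).2.toLp _⟫_ℂ = 0 := by
    have e1 := (tendsto_pow_atTop_nhds_zero_of_lt_one h0 h1).mul_const ‖hψ.2.toLp ψ‖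
    rw [zero_mul] at e1
    refine norm_le_zero_iff.1 (ge_of_tendsto' e1 fun n => ?_)
    rw [hit n, norm_mul, norm_pow, Complex.norm_real, Real.norm_eq_abs, abs_of_nonneg h0]
    refine mul_le_mul_of_nonneg_left ((norm_inner_le_norm _ _).trans ?_) (by positivity)
    exact (mul_le_of_le_one_left (norm_nonneg _) hn).trans (hbd _)
  have e1 : (hψ.pow_mul 1).2.toLp _ = hψ.shift.2.toLp _ :=
    MemLp.toLp_congr _ _ (Eventually.of_forall fun z => by simp)
  have e2 : hψ.2.toLp ψ = hφ.2.toLp φ + (r : ℂ) • hψ.shift.2.toLp _ := by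
    have a := hrec 0
    rw [show (hψ.pow_mul 0).2.toLp _ = hψ.2.toLp ψ from
        MemLp.toLp_congr _ _ (Eventually.of_forall fun z => by simp),
      show (hφ.pow_mul 0).2.toLp _ = hφ.2.toLp φ from
        MemLp.toLp_congr _ _ (Eventually.of_forall fun z => by simp)] at a
    rw [a, ← e1]
  rw [e1] at horth
  refine ⟨cf ψ, by simp [cf_zero, hψd], fun k => ?_, ?_, fun K => ?_⟩
  · have a := inner_mono_cf hψ (k + 1)
    rw [e2, inner_add_right, inner_smul_right, inner_mono_cf hφ, inner_mono_cf hψ.shift,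
      cf_shift hψ.1, ← mul_assoc, ← add_mul] at a
    exact (mul_right_cancel₀ (wt_ne _) a).symm
  · exact (cf_spec hψ.1 (z := r) (by simpa [abs_of_nonneg h0] using h1)).1.summable.tendsto_atTop_zero
  · refine (energy r (by nlinarith) K ψ hψ).trans ?_
    have a : ‖hψ.2.toLp ψ‖ ^ 2 = ‖hφ.2.toLp φ‖ ^ 2 + r ^ 2 * ‖hψ.shift.2.toLp _‖ ^ 2 := by
      rw [e2, @norm_add_sq ℂ, inner_smul_right, horth, norm_smul, Complex.norm_real,
        Real.norm_eq_abs, mul_pow, sq_abs]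
      simp
    have := pow_le_pow_left₀ (norm_nonneg _) hn 2
    linarith

theorem weight_ineq (n x u : ℝ) (hn : 0 ≤ n) (hx0 : 0 ≤ x) (hx : x ≤ 1) (hu : 0 ≤ u) :
    (x * (1 + u) / ((n + 1) * (n + 2))) ^ 2 ≤
      2 * (2 + u) / ((n + 1) * (n + 2) * (n + 3)) * (x * (1 + u) / (n + 1)) := by
  have e1 : x * (1 + u) / ((n + 1) * (n + 2)) ≤ 2 * (2 + u) * (n + 2) / ((n + 1) * (n + 2) * (n + 3)) := by
    rw [div_le_div_iff₀ (by positivity) (by positivity)]
    have a : x * (1 + u) ≤ 2 + u := by nlinarith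
    have b : x * (1 + u) * (n + 3) ≤ (2 + u) * (2 * (n + 2)) :=
      mul_le_mul a (by linarith) (by positivity) (by positivity)
    nlinarith [mul_le_mul_of_nonneg_right b (show 0 ≤ (n + 1) * (n + 2) by positivity)]
  calc _ = x * (1 + u) / ((n + 1) * (n + 2)) * (x * (1 + u) / ((n + 1) * (n + 2))) := sq _
    _ ≤ 2 * (2 + u) * (n + 2) / ((n + 1) * (n + 2) * (n + 3)) *
        (x * (1 + u) / ((n + 1) * (n + 2))) := mul_le_mul_of_nonneg_right e1 (by positivity)
    _ = _ := by field_simp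

theorem primitive_bound {H φ F : ℂ → ℂ} (h : IsBergmanInner (gen H) φ)
    (hF : DifferentiableOn ℂ F (Metric.ball 0 1))
    (hF' : ∀ z ∈ Metric.ball (0 : ℂ) 1, deriv F z = φ z) {r : ℝ} (h0 : 0 ≤ r) (h1 : r < 1) :
    ‖F r - F 0‖ ≤ √(Real.log (1 / (1 - r)) + 2) := by
  obtain ⟨hφ, hn, ho⟩ := inner_orth h
  obtain ⟨b, b0, b1, b2, b3⟩ := coef_bound hφ hn ho h0 h1
  have hr : ‖(r : ℂ)‖ < 1 := by simpa [abs_of_nonneg h0] using h1
  obtain ⟨s1, s2⟩ := cf_spec hF hr
  have hc : ∀ k : ℕ, cf F (k + 1) = cf φ k / (k + 1) := by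
    intro k
    have a := s2 (k + 1)
    have e : deriv F =ᶠ[𝓝 0] φ := by
      filter_upwards [Metric.ball_mem_nhds (0 : ℂ) one_pos] with z hz using hF' z hz
    rw [iteratedDeriv_succ', e.iteratedDeriv_eq, ← (cf_spec hφ.1 hr).2 k, Nat.factorial_succ] at a
    have k0 : (k.factorial : ℂ) ≠ 0 := by exact_mod_cast k.factorial_ne_zero
    have k1 : (k : ℂ) + 1 ≠ 0 := by exact_mod_cast k.succ_ne_zero
    push_cast at a
    rw [eq_div_iff k1]
    exact mul_left_cancel₀ k0 (by linear_combination a)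
  let ρ : ℕ → ℝ := fun k => r ^ (k + 1) / (k + 1)
  have habel : ∀ K, ∑ k ∈ Finset.range (K + 2), (r : ℂ) ^ k * cf F k - F 0 - ρ K * b K =
      ∑ k ∈ Finset.range K, ((ρ k - r * ρ (k + 1) : ℝ) : ℂ) * b k := by
    intro K
    induction K with
    | zero => simp [Finset.sum_range_succ, cf_zero, hc 0, b0, ρ]
    | succ K ih =>
      rw [Finset.sum_range_succ _ K, ← ih, Finset.sum_range_succ _ (K + 2), hc (K + 1), b1 K]
      simp only [ρ]
      push_cast
      ring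
  have t1 : Tendsto (fun K => (ρ K : ℂ) * b K) atTop (𝓝 0) := by
    refine squeeze_zero_norm (fun K => ?_) (tendsto_zero_iff_norm_tendsto_zero.1 b2)
    rw [norm_mul, norm_mul, norm_pow, Complex.norm_real, Complex.norm_real, Real.norm_eq_abs,
      Real.norm_eq_abs, abs_of_nonneg h0, abs_of_nonneg (by positivity)]
    refine mul_le_mul_of_nonneg_right ?_ (norm_nonneg _)
    exact (div_le_self (by positivity) (by linarith [(K.cast_nonneg : (0 : ℝ) ≤ K)])).trans
      (pow_le_pow_of_le_one h0 h1.le (by omega))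
  have t2 := (((s1.tendsto_sum_nat.comp (tendsto_add_atTop_nat 2)).sub_const (F 0)).sub t1).norm
  rw [sub_zero] at t2
  refine le_of_tendsto' t2 fun K => ?_
  simp only [Function.comp]
  rw [habel K]
  refine (norm_sum_le _ _).trans (Real.le_sqrt_of_sq_le ?_)
  have hr2 : 0 ≤ 1 - r ^ 2 := by nlinarith
  have hW : ∀ k : ℕ, wt k - r ^ 2 * wt (k + 1) =
      2 * (2 + (k + 1) * (1 - r ^ 2)) / ((k + 1) * (k + 2) * (k + 3)) := fun k => by
    unfold wt
    push_cast
    field_simp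
    ring
  refine (Finset.sum_sq_le_sum_mul_sum_of_sq_le_mul _
    (f := fun k => ‖b k‖ ^ 2 * (wt k - r ^ 2 * wt (k + 1)))
    (g := fun k => r ^ (k + 1) / (k + 1) + r * (1 - r ^ 2) * r ^ k)
    (fun k _ => by rw [hW]; positivity) (fun k _ => by positivity) fun k _ => ?_).trans ?_
  · have e1 : ρ k - r * ρ (k + 1) =
        r ^ (k + 1) * (1 + (k + 1) * (1 - r ^ 2)) / ((k + 1) * (k + 2)) := by
      simp only [ρ]
      push_cast
      field_simp
      ring
    have e2 : r ^ (k + 1) / (k + 1) + r * (1 - r ^ 2) * r ^ k =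
        r ^ (k + 1) * (1 + (k + 1) * (1 - r ^ 2)) / (k + 1) := by
      field_simp
      ring
    rw [norm_mul, Complex.norm_real, Real.norm_eq_abs, mul_pow, sq_abs, hW, e1, e2, mul_comm,
      mul_assoc]
    exact mul_le_mul_of_nonneg_left (weight_ineq k _ _ k.cast_nonneg (by positivity)
      (pow_le_one₀ h0 h1.le) (by positivity)) (sq_nonneg _)
  · have e1 := sum_le_hasSum (Finset.range K) (fun k _ => by positivity)
      ((Real.hasSum_pow_div_log_of_abs_lt_one (x := r) (by rwa [abs_of_nonneg h0])).add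
        ((hasSum_geometric_of_lt_one h0 h1).mul_left (r * (1 - r ^ 2))))
    have e2 : r * (1 - r ^ 2) * (1 - r)⁻¹ ≤ 2 := by
      rw [mul_inv_le_iff₀ (by linarith)]
      nlinarith [mul_nonneg (sub_nonneg.2 h1.le) (show 0 ≤ 2 - r - r ^ 2 by nlinarith)]
    rw [one_div, Real.log_inv]
    refine (mul_le_of_le_one_left (Finset.sum_nonneg fun k _ => by positivity) (b3 K)).trans ?_
    linarith

end Pool.Agent.Lib.MP_6e4f46_an
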