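import Pool.Agent.Lib.MP_6e4f46_an.Polar

set_option autoImplicit false

namespace Pool.Agent.Lib.MP_6e4f46_an

open MeasureTheory Set Real Filter Topology
open scoped InnerProductSpace

theorem finite_dA1 : IsFiniteMeasure dA1 := by
  unfold dA1
  apply isFiniteMeasure_withDensity
  apply ne_of_lt
  calc ∫⁻ z in Metric.ball (0 : ℂ) 1, ENNReal.ofReal (2 * (1 - ‖z‖ ^ 2) / π)
      ≤ ∫⁻ _ in Metric.ball (0 : ℂ) 1, ENNReal.ofReal (2 / π) := by
        apply lintegral_mono
        intro z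
        apply ENNReal.ofReal_le_ofReal
        apply div_le_div_of_nonneg_right _ pi_pos.le
        nlinarith [sq_nonneg ‖z‖]
    _ < ⊤ := by
        rw [setLIntegral_const]
        exact ENNReal.mul_lt_top ENNReal.ofReal_lt_top measure_ball_lt_top

theorem dA1_ac : dA1 ≪ volume.restrict (Metric.ball (0 : ℂ) 1) :=
  withDensity_absolutelyContinuous _ _

theorem ae_ball : ∀ᵐ z ∂dA1, z ∈ Metric.ball (0 : ℂ) 1 :=
  dA1_ac.ae_le (ae_restrict_mem Metric.isOpen_ball.measurableSet)

theorem aesm_of_diff {f : ℂ → ℂ} (hf : DifferentiableOn ℂ f (Metric.ball 0 1)) :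
    AEStronglyMeasurable f dA1 :=
  (hf.continuousOn.aestronglyMeasurable Metric.isOpen_ball.measurableSet).mono_ac dA1_ac

theorem memLp_pow (k : ℕ) : MemLp (fun z : ℂ => z ^ k) 2 dA1 := by
  have := finite_dA1
  refine MemLp.of_bound (by fun_prop) 1 ?_
  filter_upwards [ae_ball] with z hz
  rw [norm_pow]
  exact pow_le_one₀ (norm_nonneg _) (le_of_lt (by simpa using hz))

/-- The monomial `z ^ k` in `L²(dA₁)`. -/
noncomputable def mono (k : ℕ) : Lp ℂ 2 dA1 := (memLp_pow k).toLp _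

theorem inner_toLp {f g : ℂ → ℂ} (hf : MemLp f 2 dA1) (hg : MemLp g 2 dA1) :
    ⟪hf.toLp f, hg.toLp g⟫_ℂ = ∫ z, g z * (starRingEnd ℂ) (f z) ∂dA1 := by
  rw [L2.inner_def]
  apply integral_congr_ae
  filter_upwards [hf.coeFn_toLp, hg.coeFn_toLp] with z h1 h2
  rw [h1, h2]
  simp

theorem inner_mono_le (j d : ℕ) :
    ⟪mono j, mono (j + d)⟫_ℂ = (0 : ℂ) ^ d * (wt j : ℝ) := by
  have := finite_dA1
  unfold mono
  rw [inner_toLp]
  have h : ∀ z : ℂ, z ^ (j + d) * (starRingEnd ℂ) (z ^ j) = z ^ d * ((‖z‖ ^ (2 * j) : ℝ) : ℂ) := by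
    intro z
    have : z * (starRingEnd ℂ) z = ((‖z‖ ^ 2 : ℝ) : ℂ) := by
      rw [Complex.mul_conj, Complex.normSq_eq_norm_sq]
    rw [map_pow, pow_mul, Complex.ofReal_pow, ← this]
    ring
  simp_rw [h]
  apply mean_value (fun z => z ^ d) (by fun_prop) j
  refine Integrable.of_bound (by fun_prop) 1 ?_
  filter_upwards [ae_ball] with z hz
  have hz1 : ‖z‖ ≤ 1 := le_of_lt (by simpa using hz)
  rw [norm_mul, norm_pow, Complex.norm_real, norm_pow, norm_norm]
  exact mul_le_one₀ (pow_le_one₀ (norm_nonneg _) hz1) (by positivity)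
    (pow_le_one₀ (norm_nonneg _) hz1)

theorem inner_mono (j k : ℕ) :
    ⟪mono j, mono k⟫_ℂ = if j = k then ((wt j : ℝ) : ℂ) else 0 := by
  rcases lt_trichotomy j k with h | h | h
  · obtain ⟨d, rfl⟩ := Nat.exists_eq_add_of_lt h
    rw [if_neg h.ne, add_assoc, inner_mono_le]
    simp
  · subst h
    have := inner_mono_le j 0
    simpa using this
  · obtain ⟨d, rfl⟩ := Nat.exists_eq_add_of_lt h
    rw [if_neg h.ne', ← inner_conj_symm, add_assoc, inner_mono_le]
    simp

theorem norm_mono_sq (k : ℕ) : ‖mono k‖ ^ 2 = wt k := by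
  have h := inner_mono k k
  rw [if_pos rfl] at h
  rw [← inner_self_eq_norm_sq (𝕜 := ℂ), h]
  simp

theorem inner_mono_zero {f : ℂ → ℂ} (hf : InA f) : ⟪mono 0, hf.2.toLp f⟫_ℂ = f 0 := by
  have := finite_dA1
  unfold mono
  rw [inner_toLp]
  have h := mean_value f hf.1 0 (by simpa using hf.2.integrable (by norm_num))
  have hw : wt 0 = 1 := by simp [wt]
  simpa [hw] using h

theorem summable_of_orth {E : Type*} [NormedAddCommGroup E] [InnerProductSpace ℂ E]
    [CompleteSpace E] (v : ℕ → E) (ho : Pairwise fun i j => ⟪v i, v j⟫_ℂ = 0)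
    (hs : Summable fun i => ‖v i‖ ^ 2) : Summable v := by
  have hO : OrthogonalFamily ℂ (fun i => (ℂ ∙ v i : Submodule ℂ E))
      (fun i => (ℂ ∙ v i : Submodule ℂ E).subtypeₗᵢ) := by
    apply OrthogonalFamily.of_pairwise
    intro i j hij
    simp only [Function.onFun]
    rw [Submodule.isOrtho_span]
    intro x hx y hy
    rw [Set.mem_singleton_iff] at hx hy
    rw [hx, hy]
    exact ho hij
  have := (hO.summable_iff_norm_sq_summable
    (fun i => ⟨v i, Submodule.mem_span_singleton_self _⟩)).2 (by simpa using hs)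
  simpa using this

theorem wt_anti (k d : ℕ) : wt (k + d) ≤ wt k := by
  unfold wt
  apply div_le_div_of_nonneg_left (by norm_num) (by positivity)
  push_cast
  have : (0 : ℝ) ≤ d := by positivity
  have : (0 : ℝ) ≤ k := by positivity
  nlinarith

/-- A power series with square summable weighted coefficients, multiplied by `z ^ d`, converges
in `L²(dA₁)` to the function it defines. -/
theorem series_L2 (c : ℕ → ℝ) (φ : ℂ → ℂ) (hc : Summable fun k => c k ^ 2 * wt k)
    (hφ : ∀ z ∈ Metric.ball (0 : ℂ) 1, HasSum (fun k => (c k : ℂ) * z ^ k) (φ z)) (d : ℕ) :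
    ∃ h : MemLp (fun z => φ z * z ^ d) 2 dA1,
      HasSum (fun k => (c k : ℂ) • mono (k + d)) (h.toLp _) := by
  have hs : Summable (fun k => (c k : ℂ) • mono (k + d)) := by
    apply summable_of_orth
    · intro i j hij
      rw [inner_smul_left, inner_smul_right, inner_mono, if_neg (by omega)]
      simp
    · refine Summable.of_nonneg_of_le (fun k => by positivity) (fun k => ?_) hc
      rw [norm_smul, mul_pow, norm_mono_sq, Complex.norm_real, Real.norm_eq_abs, sq_abs]
      exact mul_le_mul_of_nonneg_left (wt_anti k d) (sq_nonneg _)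
  obtain ⟨F, hF⟩ := hs
  have hT := tendstoInMeasure_of_tendsto_Lp hF.tendsto_sum_nat
  obtain ⟨ns, hns, hae⟩ := hT.exists_seq_tendsto_ae
  have hcoe : ∀ᵐ z ∂dA1, ∀ n : ℕ,
      (∑ k ∈ Finset.range n, (c k : ℂ) • mono (k + d) : Lp ℂ 2 dA1) z =
        ∑ k ∈ Finset.range n, (c k : ℂ) * z ^ k * z ^ d := by
    rw [ae_all_iff]
    intro n
    have h1 : ∀ᵐ z ∂dA1, ∀ k : ℕ, ((c k : ℂ) • mono (k + d) : Lp ℂ 2 dA1) z =
        (c k : ℂ) * z ^ k * z ^ d := by
      rw [ae_all_iff]
      intro k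
      filter_upwards [Lp.coeFn_smul (c k : ℂ) (mono (k + d)), (memLp_pow (k + d)).coeFn_toLp]
        with z h1 h2
      rw [h1, Pi.smul_apply]
      unfold mono
      rw [h2, smul_eq_mul, pow_add, mul_assoc]
    filter_upwards [Lp.coeFn_fun_finsetSum (Finset.range n)
      (fun k => (c k : ℂ) • mono (k + d)), h1] with z h2 h3
    rw [h2]
    exact Finset.sum_congr rfl fun k _ => h3 k
  have hFae : (F : ℂ → ℂ) =ᵐ[dA1] fun z => φ z * z ^ d := by
    filter_upwards [hae, hcoe, ae_ball] with z h1 h2 h3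
    simp only [h2] at h1
    have h4 := ((hφ z h3).mul_right (z ^ d)).tendsto_sum_nat.comp hns.tendsto_atTop
    exact tendsto_nhds_unique h1 h4
  have hm : MemLp (fun z => φ z * z ^ d) 2 dA1 := (memLp_congr_ae hFae).1 (Lp.memLp F)
  refine ⟨hm, ?_⟩
  have : hm.toLp _ = F := by
    apply Lp.ext
    exact hm.coeFn_toLp.trans hFae.symm
  rw [this]
  exact hF

end Pool.Agent.Lib.MP_6e4f46_an
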