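import Pool.Agent.Lib.MP_6e4f46_an.Defs

set_option autoImplicit false

namespace Pool.Agent.Lib.MP_6e4f46_an

open MeasureTheory Set Real

theorem polar_int (g : ℂ → ℂ) (hg : Integrable g) :
    ∫ z, g z = ∫ r in Ioi (0 : ℝ), ∫ θ in Ioo (-π) π,
      r • g (Complex.polarCoord.symm (r, θ)) := by
  rw [← Complex.integral_comp_polarCoord_symm]
  have h1 : Integrable (g ∘ Complex.measurableEquivRealProd.symm) :=
    ((Complex.volume_preserving_equiv_real_prod.symm).integrable_comp_emb
      Complex.measurableEquivRealProd.symm.measurableEmbedding).2 hg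
  have h2 : IntegrableOn (g ∘ Complex.measurableEquivRealProd.symm)
      (polarCoord.symm '' polarCoord.target) := h1.integrableOn
  rw [integrableOn_image_iff_integrableOn_abs_det_fderiv_smul volume
    polarCoord.open_target.measurableSet
    (fun p _ => (hasFDerivAt_polarCoord_symm p).hasFDerivWithinAt) polarCoord.symm.injOn] at h2
  have h3 : IntegrableOn (fun p : ℝ × ℝ => p.1 • g (Complex.polarCoord.symm p))
      (Ioi (0 : ℝ) ×ˢ Ioo (-π) π) := by
    refine (integrableOn_congr_fun ?_ polarCoord.open_target.measurableSet).1 h2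
    intro p hp
    simp only [det_fderivPolarCoordSymm, Function.comp]
    rw [abs_of_pos hp.1, Complex.measurableEquivRealProd_symm_polarCoord_symm_apply]
  have := setIntegral_prod (μ := volume) (ν := volume)
    (fun p : ℝ × ℝ => p.1 • g (Complex.polarCoord.symm p)) h3
  exact this

theorem circle_mean (f : ℂ → ℂ) (hf : DifferentiableOn ℂ f (Metric.ball 0 1)) (r : ℝ)
    (hr0 : 0 < r) (hr1 : r < 1) :
    ∫ θ in Ioo (-π) π, f (Complex.polarCoord.symm (r, θ)) = (2 * π : ℝ) * f 0 := by
  have hd : DiffContOnCl ℂ f (Metric.ball 0 |r|) := by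
    apply DifferentiableOn.diffContOnCl
    apply hf.mono
    rw [abs_of_pos hr0, closure_ball _ hr0.ne']
    exact Metric.closedBall_subset_ball hr1
  have h1 := hd.circleAverage
  rw [circleAverage_eq_integral_add (-π)] at h1
  have h2 : ∫ θ in (0 : ℝ)..2 * π, f (circleMap 0 r (θ + -π)) =
      ∫ θ in (-π)..π, f (circleMap 0 r θ) := by
    rw [intervalIntegral.integral_comp_add_right (fun θ => f (circleMap 0 r θ))]
    congr 1 <;> ring
  rw [h2, intervalIntegral.integral_of_le (by linarith [pi_pos]), integral_Ioc_eq_integral_Ioo]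
    at h1
  have h3 : ∀ θ : ℝ, Complex.polarCoord.symm (r, θ) = circleMap 0 r θ := by
    intro θ
    simp [circleMap, Complex.exp_mul_I]
  simp_rw [h3]
  rw [← h1, Complex.real_smul, ← mul_assoc, ← Complex.ofReal_mul,
    mul_inv_cancel₀ (by positivity)]
  simp

/-- The squared norm of `z ^ k`. -/
noncomputable def wt (k : ℕ) : ℝ := 2 / ((k + 1) * (k + 2))

theorem wt_pos (k : ℕ) : 0 < wt k := by unfold wt; positivity

theorem dens_nonneg {z : ℂ} (hz : z ∈ Metric.ball (0 : ℂ) 1) :
    0 ≤ 2 * (1 - ‖z‖ ^ 2) / π := by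
  have : ‖z‖ < 1 := by simpa using hz
  have h2 : ‖z‖ ^ 2 ≤ 1 := by nlinarith [norm_nonneg z]
  apply div_nonneg _ pi_pos.le
  linarith

theorem dens_meas : Measurable (fun z : ℂ => ENNReal.ofReal (2 * (1 - ‖z‖ ^ 2) / π)) := by
  fun_prop

theorem mean_value (f : ℂ → ℂ) (hf : DifferentiableOn ℂ f (Metric.ball 0 1)) (k : ℕ)
    (hi : Integrable (fun z => f z * ((‖z‖ ^ (2 * k) : ℝ) : ℂ)) dA1) :
    ∫ z, f z * ((‖z‖ ^ (2 * k) : ℝ) : ℂ) ∂dA1 = f 0 * (wt k : ℝ) := by
  unfold dA1 at hi ⊢
  rw [integral_withDensity_eq_integral_toReal_smul dens_meas (by simp)]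
  rw [integrable_withDensity_iff_integrable_smul' dens_meas (by simp)] at hi
  rw [← integral_indicator Metric.isOpen_ball.measurableSet]
  have hi' := (integrable_indicator_iff Metric.isOpen_ball.measurableSet).2 hi
  rw [polar_int _ hi']
  have hin : ∀ r ∈ Ioi (0 : ℝ), (∫ θ in Ioo (-π) π,
      r • (Metric.ball (0 : ℂ) 1).indicator (fun z : ℂ =>
        (ENNReal.ofReal (2 * (1 - ‖z‖ ^ 2) / π)).toReal • (f z * ((‖z‖ ^ (2 * k) : ℝ) : ℂ)))
        (Complex.polarCoord.symm (r, θ))) =
      (Iio (1 : ℝ)).indicator (fun r : ℝ =>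
        ((4 * (r ^ (2 * k + 1) - r ^ (2 * k + 3)) : ℝ) : ℂ) * f 0) r := by
    intro r hr
    have hr0 : 0 < r := hr
    have hn : ∀ θ : ℝ, ‖Complex.polarCoord.symm (r, θ)‖ = r := by
      intro θ; rw [Complex.norm_polarCoord_symm, abs_of_pos hr0]
    by_cases hr1 : r < 1
    · rw [indicator_of_mem (show r ∈ Iio (1 : ℝ) from hr1)]
      have hmem : ∀ θ : ℝ, Complex.polarCoord.symm (r, θ) ∈ Metric.ball (0 : ℂ) 1 := by
        intro θ; rw [mem_ball_zero_iff, hn]; exact hr1
      have hnn : 0 ≤ 2 * (1 - r ^ 2) / π := by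
        have := dens_nonneg (hmem 0)
        rwa [hn] at this
      have : ∀ θ : ℝ, r • (Metric.ball (0 : ℂ) 1).indicator (fun z : ℂ =>
          (ENNReal.ofReal (2 * (1 - ‖z‖ ^ 2) / π)).toReal • (f z * ((‖z‖ ^ (2 * k) : ℝ) : ℂ)))
          (Complex.polarCoord.symm (r, θ)) =
          ((r * (2 * (1 - r ^ 2) / π) * r ^ (2 * k) : ℝ) : ℂ) *
            f (Complex.polarCoord.symm (r, θ)) := by
        intro θ
        rw [indicator_of_mem (hmem θ), hn, ENNReal.toReal_ofReal hnn]
        simp only [Complex.real_smul]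
        push_cast
        ring
      simp_rw [this]
      rw [integral_const_mul, circle_mean f hf r hr0 hr1, ← mul_assoc, ← Complex.ofReal_mul]
      congr 2
      field_simp
      ring
    · rw [indicator_of_notMem (show r ∉ Iio (1 : ℝ) from hr1)]
      have hmem : ∀ θ : ℝ, Complex.polarCoord.symm (r, θ) ∉ Metric.ball (0 : ℂ) 1 := by
        intro θ; rw [mem_ball_zero_iff, hn]; exact hr1
      simp_rw [indicator_of_notMem (hmem _)]
      simp
  rw [setIntegral_congr_fun measurableSet_Ioi hin, setIntegral_indicator measurableSet_Iio,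
    Ioi_inter_Iio, integral_mul_const, integral_complex_ofReal, ← integral_Ioc_eq_integral_Ioo,
    ← intervalIntegral.integral_of_le zero_le_one, mul_comm]
  congr 2
  rw [intervalIntegral.integral_const_mul, intervalIntegral.integral_sub
    (intervalIntegral.intervalIntegrable_pow _) (intervalIntegral.intervalIntegrable_pow _),
    integral_pow, integral_pow]
  unfold wt
  push_cast
  simp only [one_pow, ne_eq, Nat.add_eq_zero_iff, one_ne_zero, and_false, not_false_eq_true,
    zero_pow, sub_zero]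
  field_simp
  ring

end Pool.Agent.Lib.MP_6e4f46_an
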