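import Mathlib

set_option autoImplicit false

namespace Pool.Agent.Lib.MP_6e4f46_an

open Finset

/-- The correlation of the coefficient sequence at lag `d`. -/
noncomputable def corr (N : ℕ) (g : ℕ → ℝ) (d : ℕ) : ℝ :=
  ∑ k ∈ range N, ((k + 1) * g (k + d) / (k + d + 2)) * g k

/-- The value at `r` of the truncated primitive. -/
noncomputable def prim (N : ℕ) (g : ℕ → ℝ) (r : ℝ) : ℝ := ∑ k ∈ range N, r ^ (k + 1) * g k

/-- Invariant of the recursive construction. -/
structure Inv (n N : ℕ) (g : ℕ → ℝ) : Prop where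
  pos : 1 ≤ N
  zero : g 0 = 1
  supp : ∀ k, N ≤ k → g k = 0
  kill : ∀ d, 1 ≤ d → d ≤ n → corr N g d = 0
  pot : ∀ K, ∑ k ∈ range N, g k * g k + 5 * ∑ d ∈ range K, |corr N g (d + 1)| ≤ 5 - 4 / (n + 1)

/-- Relation between consecutive stages of the construction. -/
structure Rel (n N : ℕ) (g : ℕ → ℝ) (N' : ℕ) (g' : ℕ → ℝ) : Prop where
  lt : N < N'
  agree : ∀ k, k < N → g' k = g k
  mono : ∀ r, 0 ≤ r → r ≤ 1 → prim N g r ≤ prim N' g' r
  gain : prim N g 1 + 1 / (2 * (n + 1)) ≤ prim N' g' 1

theorem inv_zero : Inv 0 1 (fun k => if k = 0 then 1 else 0) where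
  pos := le_rfl
  zero := by simp
  supp := by intro k hk; rw [if_neg (by omega)]
  kill := by intro d h1 h2; omega
  pot := by intro K; simp [corr]; norm_num

theorem step (n N : ℕ) (g : ℕ → ℝ) (h : Inv n N g) :
    ∃ (N' : ℕ) (g' : ℕ → ℝ), Inv (n + 1) N' g' ∧ Rel n N g N' g' := by
  classical
  set d : ℕ := n + 1 with hd
  set e : ℝ := corr N g d with he
  have hdpos : (0 : ℝ) < d := by rw [hd]; positivity
  set a : ℝ := Real.sqrt (1 / (d : ℝ) ^ 2 + 4 * |e|) with ha
  have ha2 : a ^ 2 = 1 / (d : ℝ) ^ 2 + 4 * |e| := Real.sq_sqrt (by positivity)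
  have hapos : 0 < a := Real.sqrt_pos.2 (by positivity)
  have had : 1 / (d : ℝ) ≤ a := by
    apply Real.le_sqrt_of_sq_le
    have := abs_nonneg e
    rw [div_pow, one_pow]; linarith
  set C : ℝ := ∑ k ∈ range N, (k + 1) * |g k| with hC
  have hC0 : 0 ≤ C := Finset.sum_nonneg fun k _ => by positivity
  obtain ⟨M0, hM0⟩ := exists_nat_ge (10 * C * a * (d : ℝ) ^ 2)
  set M : ℕ := M0 + N + d with hM
  have hMd : (d : ℝ) ≤ M := by rw [hM]; push_cast; have : (0:ℝ) ≤ M0 := by positivity
                               have : (0:ℝ) ≤ N := by positivity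
                               linarith
  have hMM0 : (M0 : ℝ) ≤ M := by rw [hM]; push_cast; have : (0:ℝ) ≤ N := by positivity
                                 linarith
  have hM0' : (0 : ℝ) ≤ M := by positivity
  set b : ℝ := -e * (M + d + 2) / ((M + 1) * a) with hb
  have hba : |b| ≤ a / 2 := by
    rw [hb, abs_div, abs_mul, abs_neg, abs_of_pos (by positivity : (0:ℝ) < M + d + 2),
      abs_of_pos (by positivity : (0:ℝ) < (M + 1) * a), div_le_iff₀ (by positivity)]
    have h1 : |e| * (M + d + 2) ≤ |e| * (2 * (M + 1)) :=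
      mul_le_mul_of_nonneg_left (by linarith) (abs_nonneg e)
    have h2 : 4 * |e| ≤ a ^ 2 := by rw [ha2]; have : 0 ≤ 1 / (d : ℝ) ^ 2 := by positivity
                                    linarith
    nlinarith
  have hab : ((M : ℝ) + 1) * b / (M + d + 2) * a = -e := by
    rw [hb]; field_simp
  let g' : ℕ → ℝ := fun k => g k + (if k = M then a else 0) + (if k = M + d then b else 0)
  have hsum : ∀ f : ℕ → ℝ, ∑ k ∈ range (M + d + 1), f k * g' k =
      ∑ k ∈ range N, f k * g k + f M * a + f (M + d) * b := by
    intro f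
    simp only [g', mul_add, Finset.sum_add_distrib, mul_ite, mul_zero, Finset.sum_ite_eq',
      Finset.mem_range]
    rw [if_pos (by omega), if_pos (by omega)]
    congr 2
    symm
    apply Finset.sum_subset
    · intro k hk; simp only [Finset.mem_range] at hk ⊢; omega
    · intro k _ hk
      simp only [Finset.mem_range, not_lt] at hk
      rw [h.supp k hk, mul_zero]
  have hagree : ∀ k, k < N → g' k = g k := by
    intro k hk
    simp only [g']
    rw [if_neg (by omega), if_neg (by omega)]; ring
  have hgM : g' M = a := by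
    simp only [g']
    rw [h.supp M (by omega), if_pos trivial, if_neg (by omega)]; ring
  have hgMd : g' (M + d) = b := by
    simp only [g']
    rw [h.supp (M + d) (by omega), if_neg (by omega), if_pos trivial]; ring
  -- cross terms
  let X : ℕ → ℝ := fun j => ∑ k ∈ range N, ((k + 1) * ((if k + j = M then a else 0) +
      (if k + j = M + d then b else 0)) / (k + j + 2)) * g k
  have hcorr : ∀ j, 1 ≤ j → corr (M + d + 1) g' j = corr N g j + X j + (if j = d then -e else 0) := by
    intro j hj
    unfold corr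
    rw [hsum (fun k => (k + 1) * g' (k + j) / (k + j + 2))]
    have h1 : g' (M + d + j) = 0 := by
      simp only [g']
      rw [h.supp _ (by omega), if_neg (by omega), if_neg (by omega)]; ring
    have h2 : ((M : ℝ) + 1) * g' (M + j) / (M + j + 2) * a = if j = d then -e else 0 := by
      by_cases hjd : j = d
      · rw [if_pos hjd, hjd, hgMd, hab]
      · rw [if_neg hjd]
        simp only [g']
        rw [h.supp _ (by omega), if_neg (by omega), if_neg (by omega)]; ring
    rw [h1, h2]
    simp only [X, ← Finset.sum_add_distrib, mul_zero, zero_div, zero_mul, add_zero]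
    congr 1
    apply Finset.sum_congr rfl
    intro k _
    simp only [g']
    ring
  have hX0 : ∀ j, j ≤ d → X j = 0 := by
    intro j hj
    apply Finset.sum_eq_zero
    intro k hk
    simp only [Finset.mem_range] at hk
    rw [if_neg (by omega), if_neg (by omega)]; ring
  have hXsum : ∀ K, ∑ j ∈ range K, |X (j + 1)| ≤ C * (3 / 2 * a) / (M + 2) := by
    intro K
    have h1 : ∀ j, |X (j + 1)| ≤ ∑ k ∈ range N, (k + 1) * |g k| / (M + 2) *
        ((if k + (j + 1) = M then a else 0) + (if k + (j + 1) = M + d then a / 2 else 0)) := by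
      intro j
      refine (Finset.abs_sum_le_sum_abs _ _).trans (Finset.sum_le_sum fun k _ => ?_)
      have hk0 : (0 : ℝ) ≤ k := by positivity
      have hg0 := abs_nonneg (g k)
      by_cases h1 : k + (j + 1) = M
      · have h2 : ¬ (k + (j + 1) = M + d) := by omega
        have h3 : (k : ℝ) + ((j + 1 : ℕ) : ℝ) = M := by exact_mod_cast h1
        rw [if_pos h1, if_neg h2, if_neg h2, h3, add_zero, abs_mul, abs_of_pos (by positivity)]
        apply le_of_eq; ring
      · by_cases h2 : k + (j + 1) = M + d
        · have h3 : (k : ℝ) + ((j + 1 : ℕ) : ℝ) = M + d := by exact_mod_cast h2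
          rw [if_neg h1, if_pos h2, if_pos h2, h3, zero_add, zero_add, abs_mul, abs_div, abs_mul,
            abs_of_pos (by positivity : (0:ℝ) < k + 1),
            abs_of_pos (by positivity : (0:ℝ) < M + d + 2)]
          have h4 : ((k : ℝ) + 1) * |b| / (M + d + 2) ≤ (k + 1) * (a / 2) / (M + 2) := by
            gcongr
            linarith
          calc ((k : ℝ) + 1) * |b| / (M + d + 2) * |g k|
              ≤ (k + 1) * (a / 2) / (M + 2) * |g k| := mul_le_mul_of_nonneg_right h4 hg0
            _ = _ := by ring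
        · rw [if_neg h1, if_neg h2, if_neg h2]; simp
    refine (Finset.sum_le_sum fun j _ => h1 j).trans ?_
    rw [Finset.sum_comm, hC, Finset.sum_mul, Finset.sum_div]
    refine Finset.sum_le_sum fun k _ => ?_
    rw [← Finset.mul_sum, Finset.sum_add_distrib]
    have h2 : ∀ (c : ℝ) (L : ℕ), 0 ≤ c →
        ∑ j ∈ range K, (if k + (j + 1) = L then c else 0) ≤ c := by
      intro c L hc
      calc ∑ j ∈ range K, (if k + (j + 1) = L then c else 0)
          ≤ ∑ j ∈ range K, (if j = L - k - 1 then c else 0) := by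
            refine Finset.sum_le_sum fun j _ => ?_
            by_cases hj : k + (j + 1) = L
            · rw [if_pos hj, if_pos (by omega)]
            · rw [if_neg hj]; split_ifs
              · exact hc
              · exact le_rfl
        _ ≤ c := by
            rw [Finset.sum_ite_eq']; split_ifs
            · exact le_rfl
            · exact hc
    have h3 := h2 a M hapos.le
    have h4 := h2 (a / 2) (M + d) (by positivity)
    have h5 : 0 ≤ ((k : ℝ) + 1) * |g k| / (M + 2) := by positivity
    calc _ ≤ ((k : ℝ) + 1) * |g k| / (M + 2) * (a + a / 2) :=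
          mul_le_mul_of_nonneg_left (add_le_add h3 h4) h5
      _ = _ := by ring
  have hXsmall : 5 * (C * (3 / 2 * a) / (M + 2)) ≤ 3 / 4 * (1 / (d : ℝ) ^ 2) := by
    rw [← mul_div_assoc, mul_one_div, div_le_div_iff₀ (by positivity) (by positivity)]
    nlinarith
  refine ⟨M + d + 1, g', ⟨by omega, ?_, ?_, ?_, ?_⟩, ⟨by omega, hagree, ?_, ?_⟩⟩
  · rw [hagree 0 h.pos, h.zero]
  · intro k hk
    simp only [g']
    rw [h.supp _ (by omega), if_neg (by omega), if_neg (by omega)]; ring
  · intro j hj1 hj2
    rw [hcorr j hj1, hX0 j hj2]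
    by_cases hjd : j = d
    · rw [if_pos hjd, hjd]; ring
    · rw [if_neg hjd, h.kill j hj1 (by omega)]; ring
  · intro K
    have h1 : ∑ k ∈ range (M + d + 1), g' k * g' k =
        ∑ k ∈ range N, g k * g k + a * a + b * b := by
      rw [hsum g', hgM, hgMd]
      congr 2
      exact Finset.sum_congr rfl fun k hk => by rw [hagree k (Finset.mem_range.1 hk)]
    have h2 : ∑ j ∈ range K, |corr (M + d + 1) g' (j + 1)| ≤
        ∑ j ∈ range (K + d), |corr (M + d + 1) g' (j + 1)| :=
      Finset.sum_le_sum_of_subset_of_nonneg (Finset.range_mono (by omega))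
        fun j _ _ => abs_nonneg _
    have h3 : ∀ j, |corr (M + d + 1) g' (j + 1)| ≤
        |corr N g (j + 1)| + |X (j + 1)| - (if j = n then |e| else 0) := by
      intro j
      rw [hcorr (j + 1) (by omega)]
      by_cases hj : j = n
      · rw [if_pos (by omega), if_pos hj, hj, ← hd, ← he]
        apply le_of_eq
        rw [show e + X d + -e = X d by ring]; ring
      · rw [if_neg (by omega), if_neg hj, add_zero, sub_zero]
        exact abs_add_le _ _
    have h4 : ∑ j ∈ range (K + d), |corr (M + d + 1) g' (j + 1)| ≤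
        ∑ j ∈ range (K + d), |corr N g (j + 1)| + ∑ j ∈ range (K + d), |X (j + 1)| - |e| := by
      refine (Finset.sum_le_sum fun j _ => h3 j).trans ?_
      rw [Finset.sum_sub_distrib, Finset.sum_add_distrib, Finset.sum_ite_eq',
        if_pos (Finset.mem_range.2 (by omega))]
    have h5 := hXsum (K + d)
    have h6 := h.pot (K + d)
    have h7 : b * b ≤ a ^ 2 / 4 := by
      have := abs_mul_abs_self b
      have h0 := abs_nonneg b
      nlinarith
    have h8 : 2 * (1 / (d : ℝ) ^ 2) ≤ 4 / (n + 1) - 4 / ((n + 1 : ℕ) + 1) := by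
      rw [hd]; push_cast
      have hn : (0 : ℝ) ≤ n := by positivity
      rw [div_sub_div _ _ (by positivity) (by positivity), mul_one_div,
        div_le_div_iff₀ (by positivity) (by positivity)]
      nlinarith
    rw [h1]
    nlinarith
  · intro r hr0 hr1
    unfold prim
    rw [hsum (fun k => r ^ (k + 1))]
    have h1 : r ^ (M + d + 1) ≤ r ^ (M + 1) := pow_le_pow_of_le_one hr0 hr1 (by omega)
    have h2 : 0 ≤ r ^ (M + d + 1) := by positivity
    have h3 : -(a / 2) ≤ b := (abs_le.1 hba).1
    nlinarith
  · unfold prim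
    rw [hsum (fun k => (1 : ℝ) ^ (k + 1))]
    have h3 : -(a / 2) ≤ b := (abs_le.1 hba).1
    have h4 : 1 / (2 * ((n : ℝ) + 1)) = (1 / (d : ℝ)) / 2 := by
      rw [hd]; push_cast; field_simp
    simp only [one_pow, one_mul]
    linarith

open Filter Topology in
theorem exists_seq : ∃ g : ℕ → ℝ, g 0 = 1 ∧ (Summable fun k => g k * g k) ∧
    (∀ d : ℕ, 1 ≤ d → HasSum (fun k : ℕ => ((k + 1) * g (k + d) / (k + d + 2)) * g k) 0) ∧
    ∀ C : ℝ, ∃ r : ℝ, 0 ≤ r ∧ r < 1 ∧ ∀ s, HasSum (fun k => r ^ (k + 1) * g k) s → C < s := by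
  choose FN Fg hInv hRel using step
  let sq : (n : ℕ) → {p : ℕ × (ℕ → ℝ) // Inv n p.1 p.2} := fun n =>
    Nat.rec (motive := fun n => {p : ℕ × (ℕ → ℝ) // Inv n p.1 p.2})
      ⟨(1, fun k => if k = 0 then 1 else 0), inv_zero⟩
      (fun n p => ⟨(FN n p.1.1 p.1.2 p.2, Fg n p.1.1 p.1.2 p.2), hInv n p.1.1 p.1.2 p.2⟩) n
  let N : ℕ → ℕ := fun n => (sq n).1.1
  let G : ℕ → ℕ → ℝ := fun n => (sq n).1.2
  have hI : ∀ n, Inv n (N n) (G n) := fun n => (sq n).2
  have hR : ∀ n, Rel n (N n) (G n) (N (n + 1)) (G (n + 1)) := fun n => hRel n _ _ (sq n).2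
  have hN : StrictMono N := strictMono_nat_of_lt_succ fun n => (hR n).lt
  have hNn : ∀ n, n < N n := by
    intro n
    induction n with
    | zero => exact (hI 0).pos
    | succ n ih => have := (hR n).lt; omega
  have hag : ∀ n m k, n ≤ m → k < N n → G m k = G n k := by
    intro n m k hnm hk
    induction m, hnm using Nat.le_induction with
    | base => rfl
    | succ m hnm ih => rw [(hR m).agree k (lt_of_lt_of_le hk (hN.monotone hnm)), ih]
  let g : ℕ → ℝ := fun k => G k k
  have hg : ∀ n k, k < N n → G n k = g k := by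
    intro n k hk
    rw [← hag n (max n k) k (le_max_left _ _) hk, hag k (max n k) k (le_max_right _ _) (hNn k)]
  have hsq : Summable fun k => g k * g k := by
    apply summable_of_sum_range_le (c := 5) (fun k => mul_self_nonneg _)
    intro K
    have h1 := (hI K).pot 0
    have h2 : ∑ k ∈ range K, g k * g k ≤ ∑ k ∈ range (N K), g k * g k :=
      Finset.sum_le_sum_of_subset_of_nonneg (Finset.range_mono (hNn K).le)
        fun k _ _ => mul_self_nonneg _
    have h3 : ∑ k ∈ range (N K), G K k * G K k = ∑ k ∈ range (N K), g k * g k :=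
      Finset.sum_congr rfl fun k hk => by rw [hg K k (Finset.mem_range.1 hk)]
    have h4 : (0 : ℝ) ≤ 4 / (K + 1) := by positivity
    simp only [Finset.range_zero, Finset.sum_empty, mul_zero, add_zero] at h1
    linarith
  have hprim : ∀ n r, prim (N n) (G n) r = ∑ k ∈ range (N n), r ^ (k + 1) * g k := by
    intro n r
    exact Finset.sum_congr rfl fun k hk => by rw [hg n k (Finset.mem_range.1 hk)]
  refine ⟨g, (hI 0).zero, hsq, ?_, ?_⟩
  · intro d hd
    have hs : Summable (fun k : ℕ => ((k + 1) * g (k + d) / (k + d + 2)) * g k) := by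
      have h1 : Summable fun k => g (k + d) * g (k + d) := (summable_nat_add_iff d).2 hsq
      refine Summable.of_norm_bounded (h1.add hsq) fun k => ?_
      have hk : (0 : ℝ) ≤ k := by positivity
      have hd0 : (0 : ℝ) ≤ d := by positivity
      have h2 : ((k : ℝ) + 1) / (k + d + 2) ≤ 1 := by
        rw [div_le_one (by positivity)]; linarith
      have h3 : 0 ≤ ((k : ℝ) + 1) / (k + d + 2) := by positivity
      rw [show ((k : ℝ) + 1) * g (k + d) / (k + d + 2) * g k =
        ((k : ℝ) + 1) / (k + d + 2) * (g (k + d) * g k) by ring, Real.norm_eq_abs, abs_mul,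
        abs_of_nonneg h3, abs_mul]
      have h4 := abs_nonneg (g (k + d))
      have h5 := abs_nonneg (g k)
      have h6 := abs_mul_abs_self (g (k + d))
      have h7 := abs_mul_abs_self (g k)
      have h8 : 0 ≤ |g (k + d)| * |g k| := by positivity
      nlinarith [sq_nonneg (|g (k + d)| - |g k|)]
    have ht : Tendsto (fun n => N n - d) atTop atTop :=
      (tendsto_sub_atTop_nat d).comp hN.tendsto_atTop
    have h1 := hs.hasSum.tendsto_sum_nat.comp ht
    have h2 : Tendsto ((fun n => ∑ k ∈ range n,
        (((k : ℝ) + 1) * g (k + d) / (k + d + 2)) * g k) ∘ fun n => N n - d) atTop (𝓝 0) := by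
      apply tendsto_const_nhds.congr'
      filter_upwards [eventually_ge_atTop d] with n hn
      rw [← (hI n).kill d hd hn]
      unfold corr
      simp only [Function.comp]
      rw [← Finset.sum_subset (Finset.range_mono (Nat.sub_le (N n) d))]
      · apply Finset.sum_congr rfl
        intro k hk
        have := Finset.mem_range.1 hk
        rw [hg n k (by omega), hg n (k + d) (by omega)]
      · intro k _ hk
        simp only [Finset.mem_range, not_lt] at hk
        rw [(hI n).supp (k + d) (by omega)]; simp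
    rw [← tendsto_nhds_unique h1 h2]
    exact hs.hasSum
  · intro C
    have hgain : ∀ n, (∑ i ∈ range n, 1 / ((i : ℝ) + 1)) / 2 ≤ prim (N n) (G n) 1 := by
      intro n
      induction n with
      | zero =>
        simp only [Finset.range_zero, Finset.sum_empty, zero_div]
        show 0 ≤ prim 1 (fun k => if k = 0 then 1 else 0) 1
        simp [prim]
      | succ n ih =>
        rw [Finset.sum_range_succ]
        have := (hR n).gain
        have h4 : 1 / (2 * ((n : ℝ) + 1)) = (1 / ((n : ℝ) + 1)) / 2 := by field_simp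
        linarith
    obtain ⟨n, hn⟩ := (Real.tendsto_sum_range_one_div_nat_succ_atTop.eventually_gt_atTop
      (2 * C)).exists
    have h1 : C < prim (N n) (G n) 1 := by have := hgain n; linarith
    have hcont : Continuous (prim (N n) (G n)) := by
      unfold prim; fun_prop
    have hev : ∀ᶠ r in 𝓝 (1 : ℝ), C < prim (N n) (G n) r :=
      hcont.continuousAt.eventually (lt_mem_nhds h1)
    have hev2 : ∀ᶠ r in 𝓝[<] (1 : ℝ), C < prim (N n) (G n) r ∧ r ∈ Set.Ioo (0 : ℝ) 1 :=
      (hev.filter_mono nhdsWithin_le_nhds).and (Ioo_mem_nhdsLT zero_lt_one)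
    obtain ⟨r, hr1, hr2, hr3⟩ := hev2.exists
    refine ⟨r, hr2.le, hr3, fun s hs => lt_of_lt_of_le hr1 ?_⟩
    have hmono : Monotone fun m => prim (N m) (G m) r :=
      monotone_nat_of_le_succ fun m => (hR m).mono r hr2.le hr3.le
    have ht : Tendsto (fun m => prim (N m) (G m) r) atTop (𝓝 s) := by
      simp only [hprim]
      exact hs.tendsto_sum_nat.comp hN.tendsto_atTop
    exact hmono.ge_of_tendsto ht n

end Pool.Agent.Lib.MP_6e4f46_an
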